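import Pool.Agent.KS6_96.SC.Flat

/-! Hadamard matrices with a flat plane: orders `2 ^ k m ^ 2`. -/

namespace Pool.Agent.KS6_96.SC

open Finset Matrix

/-- A Hadamard matrix of order `m ^ 2` from one of order `m`: the blocks are `h_lᵀ h_l` for the rows
`h_l`, in a Latin square. -/
lemma bush {m : ℕ} (hm : 2 ≤ m) (h : HadOrder m) :
    ∃ (H : Matrix (Fin m × Fin m) (Fin m × Fin m) ℝ) (b c : Fin 2 → Fin m × Fin m → ℝ),
      IsFlat H b c m 0 := by
  obtain ⟨K, hK, hKK⟩ := h
  have : NeZero m := ⟨by omega⟩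
  have hm' : (0 : ℝ) < m := by exact_mod_cast (by omega : 0 < m)
  have hrow : ∀ i k, ∑ j, K i j * K k j = if i = k then (m : ℝ) else 0 := by
    intro i k
    have h1 := congrFun (congrFun hKK i) k
    rw [Matrix.mul_apply, Matrix.smul_apply, smul_eq_mul, Matrix.one_apply] at h1
    simp only [Matrix.transpose_apply] at h1
    rw [h1]
    split_ifs <;> ring
  have hKK2 : Kᵀ * K = (m : ℝ) • (1 : Matrix (Fin m) (Fin m) ℝ) := by
    have h1 : K * ((m : ℝ)⁻¹ • Kᵀ) = 1 := by
      rw [Matrix.mul_smul, hKK, smul_smul, inv_mul_cancel₀ hm'.ne', one_smul]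
    have h2 := mul_eq_one_comm.1 h1
    rw [Matrix.smul_mul] at h2
    calc Kᵀ * K = (m : ℝ) • ((m : ℝ)⁻¹ • (Kᵀ * K)) := by
          rw [smul_smul, mul_inv_cancel₀ hm'.ne', one_smul]
      _ = _ := by rw [h2]
  have hcol : ∀ i k, ∑ j, K j i * K j k = if i = k then (m : ℝ) else 0 := by
    intro i k
    have h1 := congrFun (congrFun hKK2 i) k
    rw [Matrix.mul_apply, Matrix.smul_apply, smul_eq_mul, Matrix.one_apply] at h1
    simp only [Matrix.transpose_apply] at h1
    rw [h1]
    split_ifs <;> ring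
  obtain ⟨z, hz01⟩ : ∃ z : Fin 2 → Fin m, z 0 ≠ z 1 :=
    ⟨fun k => ⟨k.1, by omega⟩, fun h => by simpa using congrArg Fin.val h⟩
  refine ⟨Matrix.of fun x y => K (x.1 + y.1) x.2 * K (x.1 + y.1) y.2, fun k x => K (z k) x.2,
    fun k x => K (z k) x.2, ?_, ?_, ?_, ?_, ?_, hm'.le, le_rfl, ?_, ?_, ?_⟩
  · intro x y
    simp only [Matrix.of_apply]
    rcases hK (x.1 + y.1) x.2 with h | h <;> rcases hK (x.1 + y.1) y.2 with h' | h' <;>
      rw [h, h'] <;> norm_num
  · ext x y
    rw [Matrix.mul_apply, Fintype.sum_prod_type, Matrix.smul_apply, smul_eq_mul, Matrix.one_apply]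
    simp only [Matrix.transpose_apply, Matrix.of_apply]
    have e1 : ∀ j : Fin m, ∑ c : Fin m, K (x.1 + j) x.2 * K (x.1 + j) c *
        (K (y.1 + j) y.2 * K (y.1 + j) c) =
        if x.1 = y.1 then (m : ℝ) * (K (x.1 + j) x.2 * K (x.1 + j) y.2) else 0 := by
      intro j
      have e : ∀ c : Fin m, K (x.1 + j) x.2 * K (x.1 + j) c *
        (K (y.1 + j) y.2 * K (y.1 + j) c) = (K (x.1 + j) x.2 * K (y.1 + j) y.2) *
          (K (x.1 + j) c * K (y.1 + j) c) := by intro c; ring
      rw [Finset.sum_congr rfl fun c _ => e c, ← Finset.mul_sum, hrow]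
      by_cases hxy : x.1 = y.1
      · rw [hxy, if_pos rfl, if_pos rfl]; ring
      · rw [if_neg (fun h => hxy (add_right_cancel h)), if_neg hxy, mul_zero]
    rw [Finset.sum_congr rfl fun j _ => e1 j]
    by_cases hxy : x.1 = y.1
    · simp only [hxy, if_true]
      rw [← Finset.mul_sum]
      have e2 : ∑ j : Fin m, K (y.1 + j) x.2 * K (y.1 + j) y.2 = ∑ l, K l x.2 * K l y.2 :=
        Equiv.sum_comp (Equiv.addLeft y.1) (fun l => K l x.2 * K l y.2)
      rw [e2, hcol, Fintype.card_prod, Fintype.card_fin, Nat.cast_mul]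
      by_cases h2 : x.2 = y.2
      · rw [if_pos h2, if_pos (Prod.ext hxy h2)]; ring
      · rw [if_neg h2, if_neg (fun h => h2 (congrArg Prod.snd h))]; ring
    · simp only [if_neg hxy, Finset.sum_const_zero]
      rw [if_neg (fun h => hxy (congrArg Prod.fst h)), mul_zero]
  · exact fun k x => hK _ _
  · exact fun k x => hK _ _
  · rw [Fintype.sum_prod_type]
    simp only [Finset.sum_const, nsmul_eq_mul]
    rw [hrow, if_neg hz01, mul_zero]
  · rw [Fintype.card_prod, Fintype.card_fin, Nat.cast_mul]; ring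
  all_goals
    intro x
    have hgen : ∀ k : Fin 2, ∑ y : Fin m × Fin m,
        (Matrix.of fun x y : Fin m × Fin m => K (x.1 + y.1) x.2 * K (x.1 + y.1) y.2) x y *
        K (z k) y.2 = (m : ℝ) * K (z k) x.2 := by
      intro k
      rw [Fintype.sum_prod_type]
      simp only [Matrix.of_apply]
      have e1 : ∀ j : Fin m, ∑ c : Fin m, K (x.1 + j) x.2 * K (x.1 + j) c * K (z k) c =
          if x.1 + j = z k then (m : ℝ) * K (z k) x.2 else 0 := by
        intro j
        have e : ∀ c : Fin m, K (x.1 + j) x.2 * K (x.1 + j) c * K (z k) c =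
            K (x.1 + j) x.2 * (K (x.1 + j) c * K (z k) c) := by intro c; ring
        rw [Finset.sum_congr rfl fun c _ => e c, ← Finset.mul_sum, hrow]
        split_ifs with h
        · rw [h]; ring
        · rw [mul_zero]
      rw [Finset.sum_congr rfl fun j _ => e1 j]
      have e3 := Equiv.sum_comp (Equiv.addLeft x.1)
        (fun l => if l = z k then (m : ℝ) * K (z k) x.2 else 0)
      refine e3.trans ?_
      rw [Finset.sum_ite_eq' univ (z k), if_pos (Finset.mem_univ _)]
  · rw [hgen 0]; ring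
  · rw [hgen 1]; ring

/-- there is a Hadamard matrix of order `h` with a flat plane -/
def PlaneOrder (h : ℕ) : Prop :=
  ∃ (H : Matrix (Fin h) (Fin h) ℝ) (b c : Fin 2 → Fin h → ℝ) (p q : ℝ), q ≤ p ∧ IsFlat H b c p q

lemma planeOrder_of {ι : Type*} [Fintype ι] [DecidableEq ι] {H : Matrix ι ι ℝ}
    {b c : Fin 2 → ι → ℝ} {p q : ℝ} (hqp : q ≤ p) (hF : IsFlat H b c p q) :
    PlaneOrder (Fintype.card ι) := by
  let e := Fintype.equivFin ι
  refine ⟨H.submatrix e.symm e.symm, fun k i => b k (e.symm i), fun k i => c k (e.symm i), p, q,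
    hqp, ?_⟩
  obtain ⟨hS, hHH, hb, hc, h01, hp, hq, hpq, hH0, hH1⟩ := hF
  refine ⟨fun i j => hS _ _, ?_, fun k i => hb _ _, fun k i => hc _ _, ?_, hp, hq, ?_, ?_, ?_⟩
  · rw [Matrix.transpose_submatrix, Matrix.submatrix_mul_equiv, hHH, Fintype.card_fin]
    rw [← Matrix.submatrix_one_equiv e.symm]
    rfl
  · rw [← h01]
    exact e.symm.sum_comp (fun i => c 0 i * c 1 i)
  · rw [Fintype.card_fin]
    exact hpq
  · intro i
    rw [← hH0 (e.symm i)]
    exact e.symm.sum_comp (fun j => H (e.symm i) j * c 0 j)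
  · intro i
    rw [← hH1 (e.symm i)]
    exact e.symm.sum_comp (fun j => H (e.symm i) j * c 1 j)

lemma planeOrder_two : PlaneOrder 2 := by
  refine ⟨!![1, 1; 1, -1], ![![1, 1], ![1, -1]], ![![1, 1], ![-1, 1]], 1, 1, le_rfl, ?_⟩
  refine ⟨fun i j => by fin_cases i <;> fin_cases j <;> simp, ?_,
    fun i j => by fin_cases i <;> fin_cases j <;> simp,
    fun i j => by fin_cases i <;> fin_cases j <;> simp, ?_, by norm_num, by norm_num, ?_, ?_, ?_⟩
  · ext i j
    fin_cases i <;> fin_cases j <;> simp [Matrix.mul_apply, Fin.sum_univ_two] <;> norm_num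
  · simp [Fin.sum_univ_two]
  · simp; norm_num
  · intro i
    fin_cases i <;> simp [Fin.sum_univ_two] <;> norm_num
  · intro i
    fin_cases i <;> simp [Fin.sum_univ_two] <;> norm_num

/-- Flat planes can be doubled. -/
lemma PlaneOrder.double {h : ℕ} (hh : PlaneOrder h) : PlaneOrder (2 * h) := by
  obtain ⟨H, b, c, p, q, hqp, hS, hHH, hb, hc, h01, hp, hq, hpq, hH0, hH1⟩ := hh
  have hK : ∀ x y : Fin 2, (!![1, 1; 1, -1] : Matrix (Fin 2) (Fin 2) ℝ) x y = 1 ∨
      (!![1, 1; 1, -1] : Matrix (Fin 2) (Fin 2) ℝ) x y = -1 := by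
    intro x y; fin_cases x <;> fin_cases y <;> simp
  have hF : IsFlat
      (Matrix.of fun x y : Fin 2 × Fin h =>
        (!![1, 1; 1, -1] : Matrix (Fin 2) (Fin 2) ℝ) x.1 y.1 * H x.2 y.2)
      (fun k x => ![![b 1 x.2, b 0 x.2], ![b 0 x.2, -b 1 x.2]] k x.1)
      (fun k x => ![![c 0 x.2, c 1 x.2], ![-c 1 x.2, c 0 x.2]] k x.1) (p + q) (p - q) := by
    refine ⟨?_, ?_, ?_, ?_, ?_, by linarith, by linarith, ?_, ?_, ?_⟩
    · intro x y
      rw [Matrix.of_apply]
      rcases hK x.1 y.1 with h | h <;> rcases hS x.2 y.2 with h' | h' <;> rw [h, h'] <;> norm_num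
    · ext x y
      rw [Matrix.mul_apply, Fintype.sum_prod_type, Fin.sum_univ_two]
      simp only [Matrix.transpose_apply, Matrix.of_apply]
      have hr : ∀ i j, ∑ k, H i k * H j k = if i = j then (h : ℝ) else 0 := by
        intro i j
        have h1 := congrFun (congrFun hHH i) j
        rw [Matrix.mul_apply, Matrix.smul_apply, smul_eq_mul, Matrix.one_apply,
          Fintype.card_fin] at h1
        simp only [Matrix.transpose_apply] at h1
        rw [h1]
        split_ifs <;> ring
      have e : ∀ s t : ℝ, ∑ k, s * H x.2 k * (t * H y.2 k) =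
          s * t * if x.2 = y.2 then (h : ℝ) else 0 := by
        intro s t
        rw [← hr, Finset.mul_sum]
        exact Finset.sum_congr rfl fun k _ => by ring
      rw [e, e, Matrix.smul_apply, smul_eq_mul, Matrix.one_apply, Fintype.card_prod,
        Fintype.card_fin, Fintype.card_fin]
      obtain ⟨x1, x2⟩ := x
      obtain ⟨y1, y2⟩ := y
      simp only [Prod.mk.injEq]
      by_cases h2 : x2 = y2
      · fin_cases x1 <;> fin_cases y1 <;> simp [h2] <;> ring
      · simp [h2]
    · intro k x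
      obtain ⟨x1, x2⟩ := x
      have h0 := hb 0 x2
      have h1 := hb 1 x2
      fin_cases k <;> fin_cases x1
      · simpa using h1
      · simpa using h0
      · simpa using h0
      · rcases h1 with h | h <;> simp [h]
    · intro k x
      obtain ⟨x1, x2⟩ := x
      have h0 := hc 0 x2
      have h1 := hc 1 x2
      fin_cases k <;> fin_cases x1
      · simpa using h0
      · simpa using h1
      · rcases h1 with h | h <;> simp [h]
      · simpa using h0
    · rw [Fintype.sum_prod_type, Fin.sum_univ_two]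
      simp
      have e1 : ∑ i, c 1 i * c 0 i = 0 := by
        rw [← h01]; exact Finset.sum_congr rfl fun i _ => mul_comm _ _
      rw [h01, e1]; ring
    · rw [Fintype.card_prod, Fintype.card_fin, Fintype.card_fin, Nat.cast_mul]
      rw [Fintype.card_fin] at hpq
      rw [← hpq]; push_cast; ring
    · intro x
      rw [Fintype.sum_prod_type, Fin.sum_univ_two]
      simp only [Matrix.of_apply]
      have a0 := hH0 x.2
      have a1 := hH1 x.2
      obtain ⟨x1, x2⟩ := x
      simp only [Matrix.cons_val_zero, Matrix.cons_val_one] at *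
      fin_cases x1 <;> simp [Finset.sum_neg_distrib, a0, a1] <;> ring
    · intro x
      rw [Fintype.sum_prod_type, Fin.sum_univ_two]
      simp only [Matrix.of_apply]
      have a0 := hH0 x.2
      have a1 := hH1 x.2
      obtain ⟨x1, x2⟩ := x
      simp only [Matrix.cons_val_zero, Matrix.cons_val_one] at *
      fin_cases x1 <;> simp [Finset.sum_neg_distrib, a0, a1] <;> ring
  have h1 := planeOrder_of (by linarith) hF
  rwa [Fintype.card_prod, Fintype.card_fin, Fintype.card_fin] at h1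

lemma plane_square {m : ℕ} (hm : 2 ≤ m) (h : HadOrder m) : PlaneOrder (m ^ 2) := by
  obtain ⟨H, b, c, hF⟩ := bush hm h
  have h1 := planeOrder_of (by positivity) hF
  rwa [Fintype.card_prod, Fintype.card_fin, ← sq] at h1

/-- Orders `2 ^ k m ^ 2`, where `m` is the order of a Hadamard matrix. -/
lemma plane_orders {m : ℕ} (k : ℕ) (hm : 1 ≤ m) (h : HadOrder m) (h2 : 2 ≤ 2 ^ k * m ^ 2) :
    PlaneOrder (2 ^ k * m ^ 2) := by
  induction k with
  | zero =>
    rw [pow_zero, one_mul] at h2 ⊢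
    refine plane_square ?_ h
    by_contra hc
    have : m = 1 := by omega
    subst this
    norm_num at h2
  | succ k ih =>
    have e : 2 ^ (k + 1) * m ^ 2 = 2 * (2 ^ k * m ^ 2) := by ring
    by_cases h3 : 2 ≤ 2 ^ k * m ^ 2
    · rw [e]; exact (ih h3).double
    · have h4 : 1 ≤ 2 ^ k * m ^ 2 := Nat.succ_le_of_lt (by positivity)
      have h5 : 2 ^ k * m ^ 2 = 1 := by omega
      rw [e, h5]
      exact planeOrder_two

/-- Two more than an order with a flat plane. -/
lemma r_plane {h : ℕ} (hh : 1 ≤ h) (hP : PlaneOrder h) :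
    (((h : ℝ) + 2) * √(h : ℝ) + 3 / 4) / ((h : ℝ) + 3 / 2) ≤ r (h + 2) := by
  obtain ⟨H, b, c, p, q, -, hF⟩ := hP
  have : Nonempty (Fin h) := ⟨⟨0, by omega⟩⟩
  have h1 := r_flat hF
  rwa [Fintype.card_fin] at h1

end Pool.Agent.KS6_96.SC
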