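import Pool.Agent.KS6_96.SC.Orders

/-! Paley's matrices. -/

namespace Pool.Agent.KS6_96.SC

open Finset Matrix

variable {F : Type*} [Field F] [Fintype F] [DecidableEq F]

lemma jac0 (hF : ringChar F ≠ 2) {t : F} (ht : t ≠ 0) :
    ∑ u : F, quadraticChar F u * quadraticChar F (u + t) = -1 := by
  have h1 : ∑ u : F, quadraticChar F u * quadraticChar F (u + t) =
      ∑ u ∈ univ.erase (0 : F), quadraticChar F (1 + t * u⁻¹) := by
    rw [← Finset.add_sum_erase _ _ (Finset.mem_univ (0 : F))]
    rw [show quadraticChar F 0 = 0 by simp, zero_mul, zero_add]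
    refine Finset.sum_congr rfl fun u hu => ?_
    have hu0 : u ≠ 0 := Finset.ne_of_mem_erase hu
    have h2 : u + t = u * (1 + t * u⁻¹) := by field_simp
    rw [h2, map_mul, ← mul_assoc, ← sq, quadraticChar_sq_one hu0, one_mul]
  have h3 : ∑ u ∈ univ.erase (0 : F), quadraticChar F (1 + t * u⁻¹) =
      ∑ v ∈ univ.erase (1 : F), quadraticChar F v := by
    refine Finset.sum_bij' (fun u _ => 1 + t * u⁻¹) (fun v _ => t * (v - 1)⁻¹) ?_ ?_ ?_ ?_ ?_
    · intro u hu
      have hu0 : u ≠ 0 := Finset.ne_of_mem_erase hu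
      refine Finset.mem_erase.2 ⟨fun h => ?_, Finset.mem_univ _⟩
      have : t * u⁻¹ = 0 := by linear_combination h
      rcases mul_eq_zero.1 this with h | h
      · exact ht h
      · exact hu0 (inv_eq_zero.1 h)
    · intro v hv
      have hv1 : v ≠ 1 := Finset.ne_of_mem_erase hv
      refine Finset.mem_erase.2 ⟨fun h => ?_, Finset.mem_univ _⟩
      rcases mul_eq_zero.1 h with h | h
      · exact ht h
      · exact hv1 (sub_eq_zero.1 (inv_eq_zero.1 h))
    · intro u hu
      have hu0 : u ≠ 0 := Finset.ne_of_mem_erase hu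
      simp only [add_sub_cancel_left, mul_inv, inv_inv]
      field_simp
    · intro v hv
      have hv1 : v - 1 ≠ 0 := sub_ne_zero.2 (Finset.ne_of_mem_erase hv)
      simp only [mul_inv, inv_inv]
      field_simp
      ring
    · intro u _
      rfl
  have h4 := quadraticChar_sum_zero hF
  rw [← Finset.add_sum_erase _ _ (Finset.mem_univ (1 : F))] at h4
  rw [h1, h3]
  rw [map_one] at h4
  linarith

/-- The quadratic character as a real function. -/
noncomputable def ch (x : F) : ℝ := (quadraticChar F x : ℝ)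

lemma ch_zero : ch (0 : F) = 0 := by simp [ch]

lemma ch_or {x : F} (hx : x ≠ 0) : ch x = 1 ∨ ch x = -1 := by
  rcases quadraticChar_dichotomy hx with h | h <;> simp [ch, h]

lemma ch_sq {x : F} (hx : x ≠ 0) : ch x * ch x = 1 := by
  rcases ch_or hx with h | h <;> rw [h] <;> norm_num

lemma ch_sum (hF : ringChar F ≠ 2) : ∑ x : F, ch x = 0 := by
  unfold ch
  rw [← Int.cast_sum, quadraticChar_sum_zero hF, Int.cast_zero]

lemma ch_neg (x : F) : ch (-x) = ch (-1 : F) * ch x := by
  unfold ch
  rw [← Int.cast_mul, ← map_mul]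
  simp

lemma jac (hF : ringChar F ≠ 2) {a b : F} (hab : a ≠ b) :
    ∑ c : F, ch (a - c) * ch (b - c) = -1 := by
  have h1 : ∑ c : F, ch (a - c) * ch (b - c) = ∑ u : F, ch u * ch (u + (b - a)) := by
    refine (Equiv.sum_comp (Equiv.subLeft a) (fun u => ch u * ch (u + (b - a)))).symm.trans ?_ |>.symm
    refine Finset.sum_congr rfl fun c _ => ?_
    simp only [Equiv.subLeft_apply]
    congr 2
    ring
  have h2 := jac0 hF (sub_ne_zero.2 hab.symm)
  rw [h1]
  unfold ch
  exact_mod_cast h2

lemma sum_ch_shift (hF : ringChar F ≠ 2) (a : F) : ∑ c : F, ch (a - c) = 0 := by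
  rw [← ch_sum hF]
  exact Equiv.sum_comp (Equiv.subLeft a) (fun u => ch u)

lemma sum_ch_sq (a : F) : ∑ c : F, ch (a - c) * ch (a - c) = (Fintype.card F : ℝ) - 1 := by
  rw [← Finset.add_sum_erase _ _ (Finset.mem_univ a), sub_self, ch_zero, zero_mul, zero_add]
  rw [Finset.sum_congr rfl fun c hc => ch_sq (sub_ne_zero.2 (Finset.ne_of_mem_erase hc).symm)]
  rw [Finset.sum_const, Finset.card_erase_of_mem (Finset.mem_univ a), Finset.card_univ,
    nsmul_eq_mul, mul_one, Nat.cast_sub Fintype.card_pos, Nat.cast_one]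

/-- Paley's conference matrix. -/
noncomputable def pal (F : Type*) [Field F] [Fintype F] [DecidableEq F] :
    Matrix (Option F) (Option F) ℝ :=
  Matrix.of fun x y => match x, y with
    | none, none => 0
    | none, some _ => 1
    | some _, none => ch (-1 : F)
    | some a, some b => ch (a - b)

omit [Fintype F] [DecidableEq F] in
lemma neg_one_ne : (-1 : F) ≠ 0 := neg_ne_zero.2 one_ne_zero

lemma pal_diag (x : Option F) : pal F x x = 0 := by
  rcases x with _ | a
  · rfl
  · change ch (a - a) = 0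
    rw [sub_self, ch_zero]

lemma pal_off {x y : Option F} (h : x ≠ y) : pal F x y = 1 ∨ pal F x y = -1 := by
  rcases x with _ | a <;> rcases y with _ | b
  · exact absurd rfl h
  · left; rfl
  · exact ch_or neg_one_ne
  · exact ch_or (sub_ne_zero.2 fun h' => h (by rw [h']))

lemma pal_transpose : (pal F)ᵀ = ch (-1 : F) • pal F := by
  ext x y
  rw [Matrix.transpose_apply, Matrix.smul_apply, smul_eq_mul]
  rcases x with _ | a <;> rcases y with _ | b
  · change (0 : ℝ) = _ * 0
    rw [mul_zero]
  · change ch (-1 : F) = ch (-1 : F) * 1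
    rw [mul_one]
  · change (1 : ℝ) = ch (-1 : F) * ch (-1 : F)
    rw [ch_sq neg_one_ne]
  · change ch (b - a) = ch (-1 : F) * ch (a - b)
    rw [← ch_neg, neg_sub]

lemma pal_mul (hF : ringChar F ≠ 2) :
    pal F * (pal F)ᵀ = (Fintype.card F : ℝ) • (1 : Matrix (Option F) (Option F) ℝ) := by
  ext x y
  rw [Matrix.mul_apply, Matrix.smul_apply, smul_eq_mul, Fintype.sum_option]
  simp only [Matrix.transpose_apply]
  rcases x with _ | a <;> rcases y with _ | b
  · change (0 : ℝ) * 0 + ∑ c : F, (1 : ℝ) * 1 = _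
    rw [Matrix.one_apply_eq]
    simp
  · change (0 : ℝ) * ch (-1 : F) + ∑ c : F, (1 : ℝ) * ch (b - c) = _
    rw [Matrix.one_apply_ne (by simp)]
    simp only [one_mul]
    rw [sum_ch_shift hF]
    ring
  · change ch (-1 : F) * 0 + ∑ c : F, ch (a - c) * 1 = _
    rw [Matrix.one_apply_ne (by simp)]
    simp only [mul_one]
    rw [sum_ch_shift hF]
    ring
  · change ch (-1 : F) * ch (-1 : F) + ∑ c : F, ch (a - c) * ch (b - c) = _
    rw [ch_sq neg_one_ne]
    by_cases hab : a = b
    · subst hab
      rw [sum_ch_sq, Matrix.one_apply_eq]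
      ring
    · rw [jac hF hab, Matrix.one_apply_ne (by simpa using hab)]
      ring

lemma ch_neg_one_one (hF : ringChar F ≠ 2) (h : Fintype.card F % 4 = 1) : ch (-1 : F) = 1 := by
  unfold ch
  rw [quadraticChar_neg_one hF, ZMod.χ₄_nat_one_mod_four h, Int.cast_one]

lemma ch_neg_one_three (hF : ringChar F ≠ 2) (h : Fintype.card F % 4 = 3) :
    ch (-1 : F) = -1 := by
  unfold ch
  rw [quadraticChar_neg_one hF, ZMod.χ₄_nat_three_mod_four h]
  norm_num

lemma conf_paley (hF : ringChar F ≠ 2) (h : Fintype.card F % 4 = 1) :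
    ConfOrder (Fintype.card F + 1) := by
  have h1 := confOrder_of (pal F) pal_diag (fun i j hij => pal_off hij)
    (by rw [pal_transpose, ch_neg_one_one hF h, one_smul])
    (by rw [pal_mul hF, Fintype.card_option]; push_cast; rw [add_sub_cancel_right])
  rwa [Fintype.card_option] at h1

lemma had_paley (hF : ringChar F ≠ 2) (h : Fintype.card F % 4 = 3) :
    HadOrder (Fintype.card F + 1) := by
  have ht : (pal F)ᵀ = -pal F := by rw [pal_transpose, ch_neg_one_three hF h, neg_one_smul]
  have h1 := hadOrder_of (1 + pal F) (fun i j => ?_) ?_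
  · rwa [Fintype.card_option] at h1
  · rw [Matrix.add_apply]
    by_cases hij : i = j
    · subst hij
      rw [Matrix.one_apply_eq, pal_diag]; norm_num
    · rw [Matrix.one_apply_ne hij, zero_add]
      exact pal_off hij
  · have h2 := pal_mul (F := F) hF
    rw [Matrix.transpose_add, Matrix.transpose_one]
    have h3 : (1 + pal F) * (1 + (pal F)ᵀ) = 1 + (pal F + (pal F)ᵀ) + pal F * (pal F)ᵀ := by
      simp only [Matrix.add_mul, Matrix.mul_add, Matrix.one_mul, Matrix.mul_one]
      abel
    rw [h3, h2, ht, add_neg_cancel, add_zero, Fintype.card_option, Nat.cast_add, Nat.cast_one,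
      add_smul, one_smul, add_comm]

lemma exists_field {q : ℕ} (hq : IsPrimePow q) (h2 : q % 2 = 1) :
    ∃ (F : Type) (_ : Field F) (_ : Fintype F) (_ : DecidableEq F), ringChar F ≠ 2 ∧
      Fintype.card F = q := by
  obtain ⟨p, k, hp, hk, rfl⟩ := hq
  have hp' : p.Prime := hp.nat_prime
  have : Fact p.Prime := ⟨hp'⟩
  have : Fintype (GaloisField p k) := Fintype.ofFinite _
  refine ⟨GaloisField p k, inferInstance, inferInstance, Classical.decEq _, ?_, ?_⟩
  · have h1 : ringChar (GaloisField p k) = p := ringChar.eq _ p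
    rw [h1]
    rintro rfl
    have : 2 ∣ 2 ^ k := dvd_pow_self 2 hk.ne'
    omega
  · rw [← Nat.card_eq_fintype_card]
    exact GaloisField.card p k hk.ne'

lemma conf_primePow {q : ℕ} (hq : IsPrimePow q) (h : q % 4 = 1) : ConfOrder (q + 1) := by
  obtain ⟨F, _, _, _, hF, hc⟩ := exists_field hq (by omega)
  rw [← hc]
  exact conf_paley hF (by rw [hc]; exact h)

lemma had_primePow {q : ℕ} (hq : IsPrimePow q) (h : q % 4 = 3) : HadOrder (q + 1) := by
  obtain ⟨F, _, _, _, hF, hc⟩ := exists_field hq (by omega)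
  rw [← hc]
  exact had_paley hF (by rw [hc]; exact h)

end Pool.Agent.KS6_96.SC
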