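import Pool.Agent.KS6_96.SC.Bush
import Pool.Agent.KS6_96.SC.Paley

/-! Hadamard matrices of order `2 c` from conference matrices of order `c`, and flat planes for
regular conference matrices. -/

namespace Pool.Agent.KS6_96.SC

open Finset Matrix

/-- the matrix `[[C + 1, C - 1], [C - 1, -C - 1]]` -/
noncomputable def pal2 {ι : Type*} [DecidableEq ι] (C : Matrix ι ι ℝ) :
    Matrix (Fin 2 × ι) (Fin 2 × ι) ℝ :=
  Matrix.of fun x y => (!![1, 1; 1, -1] : Matrix (Fin 2) (Fin 2) ℝ) x.1 y.1 * C x.2 y.2 +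
    (!![1, -1; -1, -1] : Matrix (Fin 2) (Fin 2) ℝ) x.1 y.1 * (1 : Matrix ι ι ℝ) x.2 y.2

lemma pal2_sign {ι : Type*} [DecidableEq ι] {C : Matrix ι ι ℝ} (h0 : ∀ i, C i i = 0)
    (h1 : ∀ i j, i ≠ j → C i j = 1 ∨ C i j = -1) : IsSign (pal2 C) := by
  intro x y
  obtain ⟨x1, x2⟩ := x
  obtain ⟨y1, y2⟩ := y
  unfold pal2
  rw [Matrix.of_apply]
  by_cases h : x2 = y2
  · subst h
    simp only [h0, Matrix.one_apply_eq]
    fin_cases x1 <;> fin_cases y1 <;> simp
  · simp only [Matrix.one_apply_ne h]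
    rcases h1 x2 y2 h with h' | h' <;> fin_cases x1 <;> fin_cases y1 <;> simp [h']

lemma pal2_mul {ι : Type*} [Fintype ι] [DecidableEq ι] {C : Matrix ι ι ℝ}
    (h2 : Cᵀ = C) (h3 : C * Cᵀ = ((Fintype.card ι : ℝ) - 1) • (1 : Matrix ι ι ℝ)) :
    pal2 C * (pal2 C)ᵀ =
      (Fintype.card (Fin 2 × ι) : ℝ) • (1 : Matrix (Fin 2 × ι) (Fin 2 × ι) ℝ) := by
  have hr : ∀ i j, ∑ k, C i k * C j k =
      ((Fintype.card ι : ℝ) - 1) * (1 : Matrix ι ι ℝ) i j := by
    intro i j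
    have h1 := congrFun (congrFun h3 i) j
    rw [Matrix.mul_apply, Matrix.smul_apply, smul_eq_mul] at h1
    simp only [Matrix.transpose_apply] at h1
    exact h1
  have ht : ∀ i j, C j i = C i j := fun i j => by
    have := congrFun (congrFun h2 i) j
    rwa [Matrix.transpose_apply] at this
  ext x y
  obtain ⟨x1, x2⟩ := x
  obtain ⟨y1, y2⟩ := y
  rw [Matrix.mul_apply, Fintype.sum_prod_type]
  have e : ∀ a : Fin 2, ∑ j : ι, pal2 C (x1, x2) (a, j) * (pal2 C)ᵀ (a, j) (y1, y2) =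
      (!![1, 1; 1, -1] : Matrix (Fin 2) (Fin 2) ℝ) x1 a *
        (!![1, 1; 1, -1] : Matrix (Fin 2) (Fin 2) ℝ) y1 a *
        (((Fintype.card ι : ℝ) - 1) * (1 : Matrix ι ι ℝ) x2 y2) +
      (!![1, 1; 1, -1] : Matrix (Fin 2) (Fin 2) ℝ) x1 a *
        (!![1, -1; -1, -1] : Matrix (Fin 2) (Fin 2) ℝ) y1 a * C x2 y2 +
      (!![1, -1; -1, -1] : Matrix (Fin 2) (Fin 2) ℝ) x1 a *
        (!![1, 1; 1, -1] : Matrix (Fin 2) (Fin 2) ℝ) y1 a * C x2 y2 +
      (!![1, -1; -1, -1] : Matrix (Fin 2) (Fin 2) ℝ) x1 a *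
        (!![1, -1; -1, -1] : Matrix (Fin 2) (Fin 2) ℝ) y1 a * (1 : Matrix ι ι ℝ) x2 y2 := by
    intro a
    have key : ∀ k k' l l' : ℝ, ∑ j, (k * C x2 j + l * (1 : Matrix ι ι ℝ) x2 j) *
        (k' * C y2 j + l' * (1 : Matrix ι ι ℝ) y2 j) =
        k * k' * (((Fintype.card ι : ℝ) - 1) * (1 : Matrix ι ι ℝ) x2 y2) + k * l' * C x2 y2 +
        l * k' * C x2 y2 + l * l' * (1 : Matrix ι ι ℝ) x2 y2 := by
      intro k k' l l'
      have e1 : ∀ j, (k * C x2 j + l * (1 : Matrix ι ι ℝ) x2 j) *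
          (k' * C y2 j + l' * (1 : Matrix ι ι ℝ) y2 j) =
          k * k' * (C x2 j * C y2 j) + k * l' * (C x2 j * (1 : Matrix ι ι ℝ) y2 j) +
          l * k' * ((1 : Matrix ι ι ℝ) x2 j * C y2 j) +
          l * l' * ((1 : Matrix ι ι ℝ) x2 j * (1 : Matrix ι ι ℝ) y2 j) := by
        intro j; ring
      rw [Finset.sum_congr rfl fun j _ => e1 j]
      simp only [Finset.sum_add_distrib, ← Finset.mul_sum]
      rw [hr]
      have a1 : ∑ j, C x2 j * (1 : Matrix ι ι ℝ) y2 j = C x2 y2 := by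
        simp [Matrix.one_apply]
      have a2 : ∑ j, (1 : Matrix ι ι ℝ) x2 j * C y2 j = C x2 y2 := by
        simp [Matrix.one_apply, ht]
      have a3 : ∑ j, (1 : Matrix ι ι ℝ) x2 j * (1 : Matrix ι ι ℝ) y2 j =
          (1 : Matrix ι ι ℝ) x2 y2 := by
        simp [Matrix.one_apply]
      rw [a1, a2, a3]
    exact key ((!![1, 1; 1, -1] : Matrix (Fin 2) (Fin 2) ℝ) x1 a)
      ((!![1, 1; 1, -1] : Matrix (Fin 2) (Fin 2) ℝ) y1 a)
      ((!![1, -1; -1, -1] : Matrix (Fin 2) (Fin 2) ℝ) x1 a)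
      ((!![1, -1; -1, -1] : Matrix (Fin 2) (Fin 2) ℝ) y1 a)
  rw [Finset.sum_congr rfl fun a _ => e a, Fin.sum_univ_two, Matrix.smul_apply, smul_eq_mul,
    Fintype.card_prod, Fintype.card_fin]
  by_cases h : x2 = y2
  · subst h
    fin_cases x1 <;> fin_cases y1 <;> simp <;> ring
  · have h' : ∀ a b : Fin 2, (1 : Matrix (Fin 2 × ι) (Fin 2 × ι) ℝ) (a, x2) (b, y2) = 0 :=
      fun a b => Matrix.one_apply_ne (fun hh => h (congrArg Prod.snd hh))
    rw [h', Matrix.one_apply_ne h]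
    fin_cases x1 <;> fin_cases y1 <;> simp <;> ring

/-- Paley's second construction. -/
lemma ConfOrder.had {c : ℕ} (h : ConfOrder c) : HadOrder (2 * c) := by
  obtain ⟨C, h0, h1, h2, h3⟩ := h
  have h4 := hadOrder_of (pal2 C) (pal2_sign h0 h1) (pal2_mul h2 (by rw [Fintype.card_fin]; exact h3))
  rwa [Fintype.card_prod, Fintype.card_fin, Fintype.card_fin] at h4

/-- there is a symmetric conference matrix of order `c` with constant row sums `k ≥ 1` -/
def RegConf (c : ℕ) : Prop :=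
  ∃ (C : Matrix (Fin c) (Fin c) ℝ) (k : ℝ), (∀ i, C i i = 0) ∧
    (∀ i j, i ≠ j → C i j = 1 ∨ C i j = -1) ∧
    Cᵀ = C ∧ C * Cᵀ = ((c : ℝ) - 1) • (1 : Matrix (Fin c) (Fin c) ℝ) ∧ 1 ≤ k ∧ k ^ 2 = (c : ℝ) - 1 ∧
    ∀ i, ∑ j, C i j = k

lemma RegConf.plane {c : ℕ} (h : RegConf c) : PlaneOrder (2 * c) := by
  obtain ⟨C, k, h0, h1, h2, h3, hk1, hk, hr⟩ := h
  have hF : IsFlat (pal2 C)
      (fun a x => ![![(1 : ℝ), -1], ![1, 1]] a x.1)
      (fun a x => ![![(1 : ℝ), 1], ![1, -1]] a x.1) (k + 1) (k - 1) := by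
    refine ⟨pal2_sign h0 h1, pal2_mul h2 (by rw [Fintype.card_fin]; exact h3), ?_, ?_, ?_,
      by linarith, by linarith, ?_, ?_, ?_⟩
    · intro a x
      obtain ⟨x1, x2⟩ := x
      fin_cases a <;> fin_cases x1 <;> simp
    · intro a x
      obtain ⟨x1, x2⟩ := x
      fin_cases a <;> fin_cases x1 <;> simp
    · rw [Fintype.sum_prod_type, Fin.sum_univ_two]
      simp
    · rw [Fintype.card_prod, Fintype.card_fin, Fintype.card_fin, Nat.cast_mul]
      push_cast
      nlinarith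
    · intro x
      obtain ⟨x1, x2⟩ := x
      rw [Fintype.sum_prod_type, Fin.sum_univ_two]
      unfold pal2
      simp only [Matrix.of_apply]
      have hone : ∑ j, (1 : Matrix (Fin c) (Fin c) ℝ) x2 j = 1 := by simp [Matrix.one_apply]
      fin_cases x1 <;> simp [Finset.sum_add_distrib, hr, hone] <;> ring
    · intro x
      obtain ⟨x1, x2⟩ := x
      rw [Fintype.sum_prod_type, Fin.sum_univ_two]
      unfold pal2
      simp only [Matrix.of_apply]
      have hone : ∑ j, (1 : Matrix (Fin c) (Fin c) ℝ) x2 j = 1 := by simp [Matrix.one_apply]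
      fin_cases x1 <;> simp [Finset.sum_add_distrib, hr, hone] <;> ring
  have h4 := planeOrder_of (by linarith) hF
  rwa [Fintype.card_prod, Fintype.card_fin, Fintype.card_fin] at h4

/-- Products of flat planes with the matrices of order `m ^ 2`. -/
lemma PlaneOrder.mul_sq {h m : ℕ} (hh : PlaneOrder h) (hm : 1 ≤ m) (hH : HadOrder m) :
    PlaneOrder (h * m ^ 2) := by
  by_cases hm2 : 2 ≤ m
  swap
  · have : m = 1 := by omega
    subst this
    simpa using hh
  obtain ⟨K, f, g, hK, hKK, hf, hg, -, hm0, -, -, hK0, -⟩ := bush hm2 hH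
  obtain ⟨H, b, c, p, q, hqp, hS, hHH, hb, hc, h01, hp, hq, hpq, hH0, hH1⟩ := hh
  have hprod : ∀ {x y : ℝ}, (x = 1 ∨ x = -1) → (y = 1 ∨ y = -1) → (x * y = 1 ∨ x * y = -1) := by
    intro x y hx hy
    rcases hx with h | h <;> rcases hy with h' | h' <;> rw [h, h'] <;> norm_num
  have hsum : ∀ (k : Fin 2) (x : Fin h × (Fin m × Fin m)),
      ∑ y : Fin h × (Fin m × Fin m), Matrix.kroneckerMap (· * ·) H K x y * (c k y.1 * g 0 y.2) =
        (∑ j, H x.1 j * c k j) * (m * f 0 x.2) := by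
    intro k x
    have h5 : ∑ j, K x.2 j * g 0 j = m * f 0 x.2 := by rw [hK0]; ring
    rw [Fintype.sum_prod_type, ← h5, Finset.sum_mul_sum]
    refine Finset.sum_congr rfl fun i _ => Finset.sum_congr rfl fun j _ => ?_
    rw [Matrix.kroneckerMap_apply]
    ring
  have hF : IsFlat (Matrix.kroneckerMap (· * ·) H K) (fun k x => b k x.1 * f 0 x.2)
      (fun k x => c k x.1 * g 0 x.2) (p * m) (q * m) := by
    refine ⟨fun x y => hprod (hS _ _) (hK _ _), ?_, fun k x => hprod (hb _ _) (hf _ _),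
      fun k x => hprod (hc _ _) (hg _ _), ?_, by positivity, by positivity, ?_, ?_, ?_⟩
    · rw [← Matrix.kroneckerMap_transpose]
      have h5 := Matrix.mul_kronecker_mul H Hᵀ K Kᵀ
      have h6 : (Matrix.kroneckerMap (· * ·) H K) * (Matrix.kroneckerMap (· * ·) Hᵀ Kᵀ) =
          Matrix.kroneckerMap (· * ·) (H * Hᵀ) (K * Kᵀ) := h5.symm
      rw [h6, hHH, hKK]
      ext i j
      rw [Matrix.kroneckerMap_apply]
      simp only [Matrix.smul_apply, smul_eq_mul, Fintype.card_prod, Fintype.card_fin, Nat.cast_mul,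
        Matrix.one_apply, Prod.ext_iff]
      by_cases h1 : i.1 = j.1 <;> by_cases h2 : i.2.1 = j.2.1 <;> by_cases h3 : i.2.2 = j.2.2 <;>
        simp [h1, h2, h3]
    · rw [Fintype.sum_prod_type]
      have e : ∀ i : Fin h, ∑ j : Fin m × Fin m, c 0 i * g 0 j * (c 1 i * g 0 j) =
          (c 0 i * c 1 i) * ∑ j, g 0 j * g 0 j := by
        intro i
        rw [Finset.mul_sum]
        exact Finset.sum_congr rfl fun j _ => by ring
      rw [Finset.sum_congr rfl fun i _ => e i, ← Finset.sum_mul, h01, zero_mul]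
    · rw [Fintype.card_fin] at hpq
      simp only [Fintype.card_prod, Fintype.card_fin, Nat.cast_mul]
      rw [← hpq]
      ring
    · intro x
      rw [hsum 0 x, hH0]
      ring
    · intro x
      rw [hsum 1 x, hH1]
      ring
  have h4 := planeOrder_of (mul_le_mul_of_nonneg_right hqp hm0) hF
  rwa [Fintype.card_prod, Fintype.card_prod, Fintype.card_fin, Fintype.card_fin, ← sq] at h4

/-- The Seidel matrix of the Petersen graph. -/
def petZ : Matrix (Fin 10) (Fin 10) ℤ := Matrix.of fun i j =>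
  let P : Fin 10 → Finset (Fin 5) :=
    ![{0, 1}, {0, 2}, {0, 3}, {0, 4}, {1, 2}, {1, 3}, {1, 4}, {2, 3}, {2, 4}, {3, 4}]
  if i = j then 0 else if P i ∩ P j = ∅ then -1 else 1

lemma petZ_mul : petZ * petZᵀ = 9 • (1 : Matrix (Fin 10) (Fin 10) ℤ) := by decide

lemma petZ_sum : ∀ i, ∑ j, petZ i j = 3 := by decide

lemma petZ_t : petZᵀ = petZ := by decide

lemma petZ_d : ∀ i, petZ i i = 0 := by decide

lemma petZ_o : ∀ i j : Fin 10, i = j ∨ petZ i j = 1 ∨ petZ i j = -1 := by decide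

lemma regConf_ten : RegConf 10 := by
  refine ⟨petZ.map (fun x : ℤ => (x : ℝ)), 3, fun i => ?_, fun i j hij => ?_, ?_, ?_, by norm_num,
    by norm_num, fun i => ?_⟩
  · rw [Matrix.map_apply, petZ_d, Int.cast_zero]
  · rw [Matrix.map_apply]
    rcases petZ_o i j with h | h | h
    · exact absurd h hij
    · left; rw [h]; norm_num
    · right; rw [h]; norm_num
  · rw [← Matrix.transpose_map, petZ_t]
  · ext i j
    have h1 := congrFun (congrFun petZ_mul i) j
    rw [Matrix.mul_apply, Matrix.smul_apply] at h1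
    rw [Matrix.mul_apply, Matrix.smul_apply]
    simp only [Matrix.transpose_apply, Matrix.map_apply] at h1 ⊢
    have h2 : ((∑ k, petZ i k * petZ j k : ℤ) : ℝ) =
        ((9 • (1 : Matrix (Fin 10) (Fin 10) ℤ) i j : ℤ) : ℝ) := by rw [h1]
    rw [Int.cast_sum] at h2
    rw [Finset.sum_congr rfl fun k _ => (Int.cast_mul (petZ i k) (petZ j k)).symm, h2]
    by_cases hij : i = j
    · subst hij; simp; norm_num
    · simp [Matrix.one_apply_ne hij]
  · have h1 := petZ_sum i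
    simp only [Matrix.map_apply]
    rw [← Int.cast_sum, h1]
    norm_num

lemma plane_twenty {m : ℕ} (k : ℕ) (hm : 1 ≤ m) (h : HadOrder m) :
    PlaneOrder (20 * 2 ^ k * m ^ 2) := by
  have h1 : ∀ k : ℕ, PlaneOrder (20 * 2 ^ k) := by
    intro k
    induction k with
    | zero => simpa using regConf_ten.plane
    | succ k ih =>
      have e : 20 * 2 ^ (k + 1) = 2 * (20 * 2 ^ k) := by ring
      rw [e]; exact ih.double
  exact (h1 k).mul_sq hm h

end Pool.Agent.KS6_96.SC
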