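import Pool.Agent.KS6_96.SC.Orders

/-! Two more than the order of a Hadamard matrix with two flat vectors. -/

namespace Pool.Agent.KS6_96.SC

open Finset Matrix

lemma opN_real {n : ℕ} (V : Matrix (Fin n) (Fin n) ℝ) (hV : V * Vᵀ = 1) :
    opN (V.map (fun x => (x : ℂ))) ≤ 1 := by
  set A : Matrix (Fin n) (Fin n) ℂ := V.map (fun x => (x : ℂ)) with hAd
  have h1 : A * star A = 1 := by
    ext i j
    have h0 := congrFun (congrFun hV i) j
    rw [Matrix.mul_apply] at h0
    rw [Matrix.mul_apply]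
    simp only [star_apply, hAd, Matrix.map_apply, Matrix.transpose_apply] at h0 ⊢
    have h9 : ((∑ k, V i k * V j k : ℝ) : ℂ) = (((1 : Matrix (Fin n) (Fin n) ℝ) i j : ℝ) : ℂ) := by
      rw [h0]
    rw [Complex.ofReal_sum] at h9
    rw [show ((1 : Matrix (Fin n) (Fin n) ℂ) i j) =
      (((1 : Matrix (Fin n) (Fin n) ℝ) i j : ℝ) : ℂ) by
        by_cases hij : i = j
        · subst hij; simp
        · simp [Matrix.one_apply_ne hij]]
    rw [← h9]
    refine Finset.sum_congr rfl fun k _ => ?_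
    simp
  unfold opN
  set T := Matrix.toEuclideanCLM (n := Fin n) (𝕜 := ℂ) A with hT
  have h2 : T * star T = 1 := by rw [hT, ← map_star, ← map_mul, h1, map_one]
  have h3 : ‖T * star T‖ = ‖T‖ * ‖T‖ := CStarRing.norm_self_mul_star
  rw [h2] at h3
  have h4 : ‖(1 : EuclideanSpace ℂ (Fin n) →L[ℂ] EuclideanSpace ℂ (Fin n))‖ ≤ 1 :=
    ContinuousLinearMap.norm_id_le
  nlinarith [norm_nonneg T]

/-- The lower bound with weights. -/
lemma r_ge_w_fin {n : ℕ} (M V : Matrix (Fin n) (Fin n) ℝ) (hM : IsSign M)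
    (hV : V * Vᵀ = 1) (u : Fin n → ℝ) (hu : 0 < ∑ i, u i ^ 2) :
    (∑ i, ∑ j, u i * (M i j * V i j) * u j) / (∑ i, u i ^ 2) ≤ r n := by
  set M' : Matrix (Fin n) (Fin n) ℂ := M.map (fun x => (x : ℂ)) with hM'd
  set A : Matrix (Fin n) (Fin n) ℂ := V.map (fun x => (x : ℂ)) with hAd
  have hM' : M' ∈ Q n := by
    intro i j
    rcases hM i j with h | h
    · left; simp [M', h]
    · right; simp [M', h]
  have hA : opN A ≤ 1 := opN_real V hV
  have h1 := le_schurN hM' hA
  have h2 := schurN_le_r hM'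
  have h3 := bf_le (had M' A) (fun i => (u i : ℂ)) (fun i => (u i : ℂ))
  have h4 : nn (fun i : Fin n => (u i : ℂ)) = √(∑ i, u i ^ 2) := by
    unfold nn
    congr 1
    refine Finset.sum_congr rfl fun i _ => ?_
    rw [Complex.norm_real, Real.norm_eq_abs, sq_abs]
  have h5 : bf (had M' A) (fun i => (u i : ℂ)) (fun i => (u i : ℂ)) =
      ((∑ i, ∑ j, u i * (M i j * V i j) * u j : ℝ) : ℂ) := by
    unfold bf had
    push_cast
    simp [M', A]
  rw [h4, h5, Complex.norm_real] at h3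
  have h6 : √(∑ i, u i ^ 2) * √(∑ i, u i ^ 2) = ∑ i, u i ^ 2 := Real.mul_self_sqrt hu.le
  rw [div_le_iff₀ hu]
  rw [mul_assoc, h6] at h3
  calc (∑ i, ∑ j, u i * (M i j * V i j) * u j) ≤ ‖∑ i, ∑ j, u i * (M i j * V i j) * u j‖ :=
        Real.le_norm_self _
    _ ≤ opN (had M' A) * ∑ i, u i ^ 2 := h3
    _ ≤ r n * ∑ i, u i ^ 2 := by
        apply mul_le_mul_of_nonneg_right _ hu.le
        exact h1.trans h2

variable {κ : Type*} [Fintype κ] [DecidableEq κ]

lemma r_ge_w (M V : Matrix κ κ ℝ) (hM : IsSign M) (hV : V * Vᵀ = 1) (u : κ → ℝ)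
    (hu : 0 < ∑ i, u i ^ 2) :
    (∑ i, ∑ j, u i * (M i j * V i j) * u j) / (∑ i, u i ^ 2) ≤ r (Fintype.card κ) := by
  let e := Fintype.equivFin κ
  have e1 : ∑ i, u i ^ 2 = ∑ i, (u (e.symm i)) ^ 2 := (e.symm.sum_comp (fun i => u i ^ 2)).symm
  have h := r_ge_w_fin (M.submatrix e.symm e.symm) (V.submatrix e.symm e.symm)
    (fun i j => hM _ _) (by
      rw [Matrix.transpose_submatrix, Matrix.submatrix_mul_equiv, hV]
      exact Matrix.submatrix_one_equiv e.symm) (fun i => u (e.symm i)) (by rw [← e1]; exact hu)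
  have h2 : (∑ i, ∑ j, u i * (M i j * V i j) * u j) =
      ∑ i : Fin (Fintype.card κ), ∑ j : Fin (Fintype.card κ), u (e.symm i) *
      ((M.submatrix e.symm e.symm) i j * (V.submatrix e.symm e.symm) i j) * u (e.symm j) := by
    rw [← e.symm.sum_comp]
    refine Finset.sum_congr rfl fun i _ => ?_
    rw [← e.symm.sum_comp]
    rfl
  rw [h2, e1]
  exact h

/-- `H` is a Hadamard matrix with a flat plane: it maps the orthogonal sign vectors `c 0`, `c 1` to
`p b 0 + q b 1` and `p b 1 - q b 0`, where `b 0`, `b 1` are sign vectors, `p, q ≥ 0`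
and `p ^ 2 + q ^ 2` is the order of `H`. -/
def IsFlat {ι : Type*} [Fintype ι] [DecidableEq ι] (H : Matrix ι ι ℝ) (b c : Fin 2 → ι → ℝ)
    (p q : ℝ) : Prop :=
  IsSign H ∧ H * Hᵀ = (Fintype.card ι : ℝ) • (1 : Matrix ι ι ℝ) ∧
  (∀ k i, b k i = 1 ∨ b k i = -1) ∧ (∀ k i, c k i = 1 ∨ c k i = -1) ∧
  (∑ i, c 0 i * c 1 i = 0) ∧ 0 ≤ p ∧ 0 ≤ q ∧ p ^ 2 + q ^ 2 = Fintype.card ι ∧
  (∀ i, ∑ j, H i j * c 0 j = p * b 0 i + q * b 1 i) ∧
  (∀ i, ∑ j, H i j * c 1 j = p * b 1 i - q * b 0 i)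

variable {ι : Type*} [Fintype ι] [DecidableEq ι]

/-- the sign matrix of order `h + 2` -/
def flatM (H : Matrix ι ι ℝ) (b c : Fin 2 → ι → ℝ) : Matrix (ι ⊕ Fin 2) (ι ⊕ Fin 2) ℝ :=
  Matrix.of fun x y => match x, y with
    | Sum.inl i, Sum.inl j => H i j
    | Sum.inl i, Sum.inr k => b k i
    | Sum.inr k, Sum.inl j => -c k j
    | Sum.inr k, Sum.inr l => !![1, 1; -1, 1] k l

/-- the orthogonal matrix -/
noncomputable def flatV (H : Matrix ι ι ℝ) (b c : Fin 2 → ι → ℝ) (p q : ℝ) :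
    Matrix (ι ⊕ Fin 2) (ι ⊕ Fin 2) ℝ :=
  Matrix.of fun x y => match x, y with
    | Sum.inl i, Sum.inl j => (√(Fintype.card ι))⁻¹ * H i j -
        1 / 2 * ((√(Fintype.card ι))⁻¹ * (√(Fintype.card ι))⁻¹ * (√(Fintype.card ι))⁻¹) *
        ((p * b 0 i + q * b 1 i) * c 0 j + (p * b 1 i - q * b 0 i) * c 1 j)
    | Sum.inl i, Sum.inr k => √3 / 2 * (√(Fintype.card ι))⁻¹ * b k i
    | Sum.inr k, Sum.inl j => -(√3 / 2 * (√(Fintype.card ι))⁻¹ * c k j)
    | Sum.inr k, Sum.inr l => 1 / 2 * (√(Fintype.card ι))⁻¹ * !![p, q; -q, p] k l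

lemma flat_c {H : Matrix ι ι ℝ} {b c : Fin 2 → ι → ℝ} {p q : ℝ} (hF : IsFlat H b c p q)
    (k l : Fin 2) :
    ∑ i, c k i * c l i = if k = l then (Fintype.card ι : ℝ) else 0 := by
  obtain ⟨-, -, -, hc, h01, -⟩ := hF
  have hd : ∀ k, ∑ i, c k i * c k i = (Fintype.card ι : ℝ) := by
    intro k
    rw [Finset.sum_congr rfl fun i _ => show c k i * c k i = 1 by
      rcases hc k i with h | h <;> rw [h] <;> norm_num]
    simp
  have h10 : ∑ i, c 1 i * c 0 i = 0 := by
    rw [← h01]; exact Finset.sum_congr rfl fun i _ => mul_comm _ _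
  fin_cases k <;> fin_cases l
  · simpa using hd 0
  · simpa using h01
  · simpa using h10
  · simpa using hd 1

lemma flatV_orth [Nonempty ι] {H : Matrix ι ι ℝ} {b c : Fin 2 → ι → ℝ} {p q : ℝ}
    (hF : IsFlat H b c p q) : flatV H b c p q * (flatV H b c p q)ᵀ = 1 := by
  have hcc := flat_c hF
  obtain ⟨hS, hHH, hb, hc, h01, hp, hq, hpq, hH0, hH1⟩ := hF
  have hh : (0 : ℝ) < Fintype.card ι := by exact_mod_cast Fintype.card_pos
  set s := √(Fintype.card ι : ℝ) with hs
  have hs2 : s * s = Fintype.card ι := Real.mul_self_sqrt hh.le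
  have hs0 : 0 < s := Real.sqrt_pos.2 hh
  set a := s⁻¹ with ha
  have has : a * s = 1 := inv_mul_cancel₀ hs0.ne'
  have haa : a * a * (s * s) = 1 := by
    calc a * a * (s * s) = (a * s) * (a * s) := by ring
      _ = 1 := by rw [has]; ring
  have h3 : √3 * √3 = (3 : ℝ) := Real.mul_self_sqrt (by norm_num)
  have hHH' : ∀ i j, ∑ k, H i k * H j k = if i = j then s * s else 0 := by
    intro i j
    have h1 := congrFun (congrFun hHH i) j
    rw [Matrix.mul_apply, Matrix.smul_apply, smul_eq_mul, Matrix.one_apply] at h1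
    simp only [Matrix.transpose_apply] at h1
    rw [h1, hs2]
    split_ifs <;> ring
  rw [← hs2] at hcc hpq
  have hpq' : a * a * (p ^ 2 + q ^ 2) = 1 := by rw [hpq, haa]
  have hc00 : ∑ m, c 0 m * c 0 m = s * s := by rw [hcc, if_pos rfl]
  have hc11 : ∑ m, c 1 m * c 1 m = s * s := by rw [hcc, if_pos rfl]
  have hc01 : ∑ m, c 0 m * c 1 m = 0 := h01
  have hc10 : ∑ m, c 1 m * c 0 m = 0 := by rw [hcc, if_neg (by decide)]
  ext x y
  rw [Matrix.mul_apply, Fintype.sum_sum_type]
  simp only [Matrix.transpose_apply]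
  rcases x with i | k <;> rcases y with j | l
  · change ∑ m, ((a * H i m - 1 / 2 * (a * a * a) *
        ((p * b 0 i + q * b 1 i) * c 0 m + (p * b 1 i - q * b 0 i) * c 1 m)) *
      (a * H j m - 1 / 2 * (a * a * a) *
        ((p * b 0 j + q * b 1 j) * c 0 m + (p * b 1 j - q * b 0 j) * c 1 m))) +
      ∑ k : Fin 2, (√3 / 2 * a * b k i) * (√3 / 2 * a * b k j) = _
    set P := p * b 0 i + q * b 1 i with hP
    set R := p * b 1 i - q * b 0 i with hR
    set P' := p * b 0 j + q * b 1 j with hP'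
    set R' := p * b 1 j - q * b 0 j with hR'
    simp only [Fin.sum_univ_two]
    have e : ∀ m, (a * H i m - 1 / 2 * (a * a * a) * (P * c 0 m + R * c 1 m)) *
        (a * H j m - 1 / 2 * (a * a * a) * (P' * c 0 m + R' * c 1 m)) =
        a * a * (H i m * H j m)
        - 1 / 2 * (a * a * a * a) * (P' * (H i m * c 0 m) + R' * (H i m * c 1 m))
        - 1 / 2 * (a * a * a * a) * (P * (H j m * c 0 m) + R * (H j m * c 1 m))
        + 1 / 4 * (a * a * a * a * a * a) * (P * P' * (c 0 m * c 0 m) +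
          P * R' * (c 0 m * c 1 m) + R * P' * (c 0 m * c 1 m) +
          R * R' * (c 1 m * c 1 m)) := by
      intro m; ring
    rw [Finset.sum_congr rfl fun m _ => e m]
    simp only [Finset.sum_add_distrib, Finset.sum_sub_distrib, ← Finset.mul_sum]
    rw [hHH', hH0, hH0, hH1, hH1, hc00, hc01, hc11]
    have hPR : P * P' + R * R' = (s * s) * (b 0 i * b 0 j + b 1 i * b 1 j) := by
      rw [← hpq, hP, hP', hR, hR']; ring
    have e2 : ∀ Z : ℝ, a * a * Z - 1 / 2 * (a * a * a * a) * (P' * P + R' * R) -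
        1 / 2 * (a * a * a * a) * (P * P' + R * R') +
        1 / 4 * (a * a * a * a * a * a) * (P * P' * (s * s) + P * R' * 0 + R * P' * 0 +
          R * R' * (s * s)) +
        (√3 / 2 * a * b 0 i * (√3 / 2 * a * b 0 j) + √3 / 2 * a * b 1 i * (√3 / 2 * a * b 1 j)) =
        a * a * Z - (a * a) * (a * a) * (P * P' + R * R') +
        1 / 4 * (a * a * (s * s)) * (a * a) * (a * a) * (P * P' + R * R') +
        (√3 * √3) / 4 * (a * a) * (b 0 i * b 0 j + b 1 i * b 1 j) := by
      intro Z; ring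
    rw [e2, haa, h3, hPR, Matrix.one_apply]
    have hij : (Sum.inl i : ι ⊕ Fin 2) = Sum.inl j ↔ i = j := by simp
    simp only [hij]
    have e3 : ∀ T : ℝ, (a * a) * (a * a) * (s * s * T) = (a * a) * T := by
      intro T
      calc (a * a) * (a * a) * (s * s * T) = (a * a * (s * s)) * ((a * a) * T) := by ring
        _ = (a * a) * T := by rw [haa, one_mul]
    have e4 : ∀ T : ℝ, 1 / 4 * 1 * (a * a) * (a * a) * (s * s * T) = 1 / 4 * ((a * a) * T) := by
      intro T
      rw [← e3 T]; ring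
    rw [e3, e4]
    split_ifs
    · rw [haa]; ring
    · ring
  · change ∑ m, ((a * H i m - 1 / 2 * (a * a * a) *
        ((p * b 0 i + q * b 1 i) * c 0 m + (p * b 1 i - q * b 0 i) * c 1 m)) *
      (-(√3 / 2 * a * c l m))) +
      ∑ k : Fin 2, (√3 / 2 * a * b k i) * (1 / 2 * a * !![p, q; -q, p] l k) = _
    rw [Matrix.one_apply_ne (by simp)]
    set P := p * b 0 i + q * b 1 i with hP
    set R := p * b 1 i - q * b 0 i with hR
    have e : ∀ m, ((a * H i m - 1 / 2 * (a * a * a) * (P * c 0 m + R * c 1 m)) *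
        (-(√3 / 2 * a * c l m))) = -(√3 / 2) * (a * a) * (H i m * c l m) +
        √3 / 4 * (a * a * a * a) * (P * (c 0 m * c l m) + R * (c 1 m * c l m)) := by
      intro m; ring
    rw [Finset.sum_congr rfl fun m _ => e m]
    simp only [Finset.sum_add_distrib, ← Finset.mul_sum]
    rw [Fin.sum_univ_two]
    fin_cases l
    · simp only [Fin.zero_eta, Fin.isValue, hH0, hc00, hc10]
      simp
      linear_combination (√3 / 4 * (a * a) * P) * haa + (√3 / 4 * (a * a)) * hP
    · simp only [Fin.mk_one, Fin.isValue, hH1, hc01, hc11]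
      simp
      linear_combination (√3 / 4 * (a * a) * R) * haa + (√3 / 4 * (a * a)) * hR
  · change ∑ m, ((-(√3 / 2 * a * c k m)) * (a * H j m - 1 / 2 * (a * a * a) *
        ((p * b 0 j + q * b 1 j) * c 0 m + (p * b 1 j - q * b 0 j) * c 1 m))) +
      ∑ l : Fin 2, (1 / 2 * a * !![p, q; -q, p] k l) * (√3 / 2 * a * b l j) = _
    rw [Matrix.one_apply_ne (by simp)]
    set P := p * b 0 j + q * b 1 j with hP
    set R := p * b 1 j - q * b 0 j with hR
    have e : ∀ m, ((-(√3 / 2 * a * c k m)) *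
        (a * H j m - 1 / 2 * (a * a * a) * (P * c 0 m + R * c 1 m))) =
        -(√3 / 2) * (a * a) * (H j m * c k m) +
        √3 / 4 * (a * a * a * a) * (P * (c 0 m * c k m) + R * (c 1 m * c k m)) := by
      intro m; ring
    rw [Finset.sum_congr rfl fun m _ => e m]
    simp only [Finset.sum_add_distrib, ← Finset.mul_sum]
    rw [Fin.sum_univ_two]
    fin_cases k
    · simp only [Fin.zero_eta, Fin.isValue, hH0, hc00, hc10]
      simp
      linear_combination (√3 / 4 * (a * a) * P) * haa + (√3 / 4 * (a * a)) * hP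
    · simp only [Fin.mk_one, Fin.isValue, hH1, hc01, hc11]
      simp
      linear_combination (√3 / 4 * (a * a) * R) * haa + (√3 / 4 * (a * a)) * hR
  · change ∑ m, ((-(√3 / 2 * a * c k m)) * (-(√3 / 2 * a * c l m))) +
      ∑ z : Fin 2, (1 / 2 * a * !![p, q; -q, p] k z) * (1 / 2 * a * !![p, q; -q, p] l z) = _
    have e : ∀ m, ((-(√3 / 2 * a * c k m)) * (-(√3 / 2 * a * c l m))) =
        (√3 * √3) / 4 * (a * a) * (c k m * c l m) := by
      intro m; ring
    rw [Finset.sum_congr rfl fun m _ => e m, ← Finset.mul_sum, hcc, h3, Fin.sum_univ_two]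
    fin_cases k <;> fin_cases l
    · simp
      linear_combination (3 / 4) * haa + (1 / 4) * hpq'
    · simp
      ring
    · simp
      ring
    · simp
      linear_combination (3 / 4) * haa + (1 / 4) * hpq'

/-- Two more than the order of a Hadamard matrix with a flat plane. -/
theorem r_flat [Nonempty ι] {H : Matrix ι ι ℝ} {b c : Fin 2 → ι → ℝ} {p q : ℝ}
    (hF : IsFlat H b c p q) :
    (((Fintype.card ι : ℝ) + 2) * √(Fintype.card ι) + 3 / 4) / ((Fintype.card ι : ℝ) + 3 / 2) ≤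
      r (Fintype.card ι + 2) := by
  have hVV := flatV_orth hF
  obtain ⟨hS, hHH, hb, hc, h01, hp, hq, hpq, hH0, hH1⟩ := hF
  have hh : (0 : ℝ) < Fintype.card ι := by exact_mod_cast Fintype.card_pos
  have hMs : IsSign (flatM H b c) := by
    intro x y
    rcases x with i | k <;> rcases y with j | l
    · exact hS i j
    · exact hb l i
    · rcases hc k j with h | h
      · right; change -c k j = -1; rw [h]
      · left; change -c k j = 1; rw [h]; norm_num
    · change (!![1, 1; -1, 1] : Matrix (Fin 2) (Fin 2) ℝ) k l = 1 ∨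
        (!![1, 1; -1, 1] : Matrix (Fin 2) (Fin 2) ℝ) k l = -1
      fin_cases k <;> fin_cases l <;> simp
  set u : ι ⊕ Fin 2 → ℝ := Sum.elim (fun _ => 1) (fun _ => √3 / 2) with hu
  have h3 : √3 * √3 = (3 : ℝ) := Real.mul_self_sqrt (by norm_num)
  have hu2 : ∑ x, u x ^ 2 = (Fintype.card ι : ℝ) + 3 / 2 := by
    rw [Fintype.sum_sum_type]
    simp only [hu, Sum.elim_inl, Sum.elim_inr, Fin.sum_univ_two]
    rw [show (√3 / 2) ^ 2 = (3 / 4 : ℝ) by
      calc (√3 / 2) ^ 2 = (√3 * √3) / 4 := by ring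
        _ = 3 / 4 := by rw [h3]]
    simp
    norm_num
  have h1 := r_ge_w (flatM H b c) (flatV H b c p q) hMs hVV u (by rw [hu2]; positivity)
  rw [Fintype.card_sum, Fintype.card_fin, hu2] at h1
  refine le_trans ?_ h1
  refine div_le_div_of_nonneg_right ?_ (by positivity)
  set s := √(Fintype.card ι : ℝ) with hs
  have hs2 : s * s = Fintype.card ι := Real.mul_self_sqrt hh.le
  have hs0 : 0 < s := Real.sqrt_pos.2 hh
  set a := s⁻¹ with ha
  have has : a * s = 1 := inv_mul_cancel₀ hs0.ne'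
  have haa : a * a * (s * s) = 1 := by
    calc a * a * (s * s) = (a * s) * (a * s) := by ring
      _ = 1 := by rw [has]; ring
  rw [← hs2] at hpq
  have hbb : ∀ k i, b k i * b k i = 1 := by
    intro k i
    rcases hb k i with h | h <;> rw [h] <;> norm_num
  have hcc : ∀ k i, c k i * c k i = 1 := by
    intro k i
    rcases hc k i with h | h <;> rw [h] <;> norm_num
  have hHsq : ∀ i j, H i j * H i j = 1 := by
    intro i j
    rcases hS i j with h | h <;> rw [h] <;> norm_num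
  rw [Fintype.sum_sum_type]
  simp only [Fintype.sum_sum_type]
  have e1 : ∀ i : ι, ∑ j : ι, u (Sum.inl i) * (flatM H b c (Sum.inl i) (Sum.inl j) *
      flatV H b c p q (Sum.inl i) (Sum.inl j)) * u (Sum.inl j) = s - a := by
    intro i
    have e : ∀ j, u (Sum.inl i) * (flatM H b c (Sum.inl i) (Sum.inl j) *
      flatV H b c p q (Sum.inl i) (Sum.inl j)) * u (Sum.inl j) =
        a * (H i j * H i j) - 1 / 2 * (a * a * a) * ((p * b 0 i + q * b 1 i) * (H i j * c 0 j) +
          (p * b 1 i - q * b 0 i) * (H i j * c 1 j)) := by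
      intro j
      change 1 * (H i j * (a * H i j - 1 / 2 * (a * a * a) *
        ((p * b 0 i + q * b 1 i) * c 0 j + (p * b 1 i - q * b 0 i) * c 1 j))) * 1 = _
      ring
    rw [Finset.sum_congr rfl fun j _ => e j, Finset.sum_sub_distrib, ← Finset.mul_sum,
      ← Finset.mul_sum, Finset.sum_add_distrib, ← Finset.mul_sum, ← Finset.mul_sum, hH0, hH1,
      Finset.sum_congr rfl fun j _ => hHsq i j]
    simp only [Finset.sum_const, Finset.card_univ, nsmul_eq_mul, mul_one]
    rw [← hs2]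
    calc a * (s * s) - 1 / 2 * (a * a * a) * ((p * b 0 i + q * b 1 i) * (p * b 0 i + q * b 1 i) +
          (p * b 1 i - q * b 0 i) * (p * b 1 i - q * b 0 i))
        = (a * s) * s - 1 / 2 * (a * a * a) * ((p ^ 2 + q ^ 2) *
          (b 0 i * b 0 i + b 1 i * b 1 i)) := by ring
      _ = (a * s) * s - (a * a * (s * s)) * a := by rw [hbb, hbb, hpq]; ring
      _ = s - a := by rw [has, haa]; ring
  have e2 : ∀ i : ι, ∑ k : Fin 2, u (Sum.inl i) * (flatM H b c (Sum.inl i) (Sum.inr k) *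
      flatV H b c p q (Sum.inl i) (Sum.inr k)) * u (Sum.inr k) = 3 / 2 * a := by
    intro i
    have e : ∀ k, u (Sum.inl i) * (flatM H b c (Sum.inl i) (Sum.inr k) *
      flatV H b c p q (Sum.inl i) (Sum.inr k)) * u (Sum.inr k) = 3 / 4 * a := by
      intro k
      change 1 * (b k i * (√3 / 2 * a * b k i)) * (√3 / 2) = _
      calc 1 * (b k i * (√3 / 2 * a * b k i)) * (√3 / 2)
          = (√3 * √3) / 4 * a * (b k i * b k i) := by ring
        _ = 3 / 4 * a := by rw [h3, hbb]; ring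
    rw [Finset.sum_congr rfl fun k _ => e k, Fin.sum_univ_two]; ring
  have e3 : ∀ k : Fin 2, ∑ j : ι, u (Sum.inr k) * (flatM H b c (Sum.inr k) (Sum.inl j) *
      flatV H b c p q (Sum.inr k) (Sum.inl j)) * u (Sum.inl j) = 3 / 4 * s := by
    intro k
    have e : ∀ j, u (Sum.inr k) * (flatM H b c (Sum.inr k) (Sum.inl j) *
      flatV H b c p q (Sum.inr k) (Sum.inl j)) * u (Sum.inl j) = 3 / 4 * a := by
      intro j
      change (√3 / 2) * (-c k j * (-(√3 / 2 * a * c k j))) * 1 = _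
      calc (√3 / 2) * (-c k j * (-(√3 / 2 * a * c k j))) * 1
          = (√3 * √3) / 4 * a * (c k j * c k j) := by ring
        _ = 3 / 4 * a := by rw [h3, hcc]; ring
    rw [Finset.sum_congr rfl fun j _ => e j]
    simp only [Finset.sum_const, Finset.card_univ, nsmul_eq_mul]
    rw [← hs2]
    calc s * s * (3 / 4 * a) = 3 / 4 * s * (a * s) := by ring
      _ = 3 / 4 * s := by rw [has]; ring
  have e4 : ∑ k : Fin 2, ∑ l : Fin 2, u (Sum.inr k) * (flatM H b c (Sum.inr k) (Sum.inr l) *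
      flatV H b c p q (Sum.inr k) (Sum.inr l)) * u (Sum.inr l) = 3 / 4 * (a * (p + q)) := by
    have e : ∀ k l : Fin 2, u (Sum.inr k) * (flatM H b c (Sum.inr k) (Sum.inr l) *
      flatV H b c p q (Sum.inr k) (Sum.inr l)) * u (Sum.inr l) =
        3 / 8 * a * ((!![1, 1; -1, 1] : Matrix (Fin 2) (Fin 2) ℝ) k l * !![p, q; -q, p] k l) := by
      intro k l
      change (√3 / 2) * ((!![1, 1; -1, 1] : Matrix (Fin 2) (Fin 2) ℝ) k l *
        (1 / 2 * a * !![p, q; -q, p] k l)) * (√3 / 2) = _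
      calc (√3 / 2) * ((!![1, 1; -1, 1] : Matrix (Fin 2) (Fin 2) ℝ) k l *
        (1 / 2 * a * !![p, q; -q, p] k l)) * (√3 / 2)
          = (√3 * √3) / 8 * a * ((!![1, 1; -1, 1] : Matrix (Fin 2) (Fin 2) ℝ) k l *
            !![p, q; -q, p] k l) := by ring
        _ = _ := by rw [h3]
    rw [Finset.sum_congr rfl fun k _ => Finset.sum_congr rfl fun l _ => e k l]
    simp only [Fin.sum_univ_two]
    simp
    ring
  simp only [Finset.sum_add_distrib]
  have e4' := e4
  rw [Finset.sum_congr rfl fun i _ => e1 i, Finset.sum_congr rfl fun i _ => e2 i,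
    Finset.sum_congr rfl fun k _ => e3 k, e4']
  simp only [Finset.sum_const, Finset.card_univ, nsmul_eq_mul, Fintype.card_fin]
  rw [← hs2]
  push_cast
  have e5 : s * s * (s - a) = s * s * s - s * (a * s) := by ring
  have e6 : s * s * (3 / 2 * a) = 3 / 2 * s * (a * s) := by ring
  rw [e5, e6, has]
  have hspq : s ≤ p + q := by
    apply le_of_sq_le_sq _ (by positivity)
    nlinarith [mul_nonneg hp hq]
  have h1a : 1 ≤ a * (p + q) := by
    rw [← has]
    exact mul_le_mul_of_nonneg_left hspq (by positivity)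
  linarith

lemma flat_gt {h : ℝ} (hh : 1 ≤ h) : √(h + 1) < ((h + 2) * √h + 3 / 4) / (h + 3 / 2) := by
  set s := √h with hs
  have hs2 : s * s = h := Real.mul_self_sqrt (by linarith)
  have hs1 : 1 ≤ s := by rw [hs, Real.one_le_sqrt]; exact hh
  have hp : 0 < ((h + 2) * s + 3 / 4) / (h + 3 / 2) := by positivity
  rw [Real.sqrt_lt' hp, div_pow, lt_div_iff₀ (by positivity)]
  have h1 : ((h + 2) * s + 3 / 4) ^ 2 = (h + 2) ^ 2 * (s * s) + 3 / 2 * ((h + 2) * s) + 9 / 16 := by
    ring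
  rw [h1, hs2]
  have h2 : (h + 2) ≤ (h + 2) * s := by nlinarith
  nlinarith

end Pool.Agent.KS6_96.SC
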