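import Pool.Agent.KS6_96.SC.SchurMul

/-! Lower bounds for the maximal Schur multiplier norm from the polar decomposition. -/

namespace Pool.Agent.KS6_96.SC

open Finset Matrix

/-- all entries are `1` or `-1` -/
def IsSign {ι : Type*} (M : Matrix ι ι ℝ) : Prop := ∀ i j, M i j = 1 ∨ M i j = -1

lemma r_ge_fin {n : ℕ} (hn : 0 < n) (M V : Matrix (Fin n) (Fin n) ℝ) (hM : IsSign M)
    (hV : V * Vᵀ = 1) : (∑ i, ∑ j, M i j * V i j) / n ≤ r n := by
  set M' : Matrix (Fin n) (Fin n) ℂ := M.map (fun x => (x : ℂ)) with hM'd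
  set A : Matrix (Fin n) (Fin n) ℂ := V.map (fun x => (x : ℂ)) with hAd
  have hM' : M' ∈ Q n := by
    intro i j
    rcases hM i j with h | h
    · left; simp [M', h]
    · right; simp [M', h]
  have hA : opN A ≤ 1 := by
    have h1 : A * star A = 1 := by
      ext i j
      have h0 := congrFun (congrFun hV i) j
      rw [Matrix.mul_apply] at h0
      rw [Matrix.mul_apply]
      simp only [star_apply, hAd, Matrix.map_apply, Matrix.transpose_apply] at h0 ⊢
      have h9 : ((∑ k, V i k * V j k : ℝ) : ℂ) = (((1 : Matrix (Fin n) (Fin n) ℝ) i j : ℝ) : ℂ) := by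
        rw [h0]
      rw [Complex.ofReal_sum] at h9
      rw [show ((1 : Matrix (Fin n) (Fin n) ℂ) i j) =
        (((1 : Matrix (Fin n) (Fin n) ℝ) i j : ℝ) : ℂ) by
          by_cases hij : i = j
          · subst hij; simp
          · simp [Matrix.one_apply_ne hij]]
      rw [← h9]
      refine Finset.sum_congr rfl fun k _ => ?_
      simp
    unfold opN
    set T := Matrix.toEuclideanCLM (n := Fin n) (𝕜 := ℂ) A with hT
    have h2 : T * star T = 1 := by rw [hT, ← map_star, ← map_mul, h1, map_one]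
    have h3 : ‖T * star T‖ = ‖T‖ * ‖T‖ := CStarRing.norm_self_mul_star
    rw [h2] at h3
    have h4 : ‖(1 : EuclideanSpace ℂ (Fin n) →L[ℂ] EuclideanSpace ℂ (Fin n))‖ ≤ 1 :=
      ContinuousLinearMap.norm_id_le
    nlinarith [norm_nonneg T]
  have h1 := le_schurN hM' hA
  have h2 := schurN_le_r hM'
  have h3 := bf_le (had M' A) (fun _ => 1) (fun _ => 1)
  have h4 : nn (fun _ : Fin n => (1 : ℂ)) = √n := by simp [nn]
  have h5 : bf (had M' A) (fun _ => 1) (fun _ => 1) = ((∑ i, ∑ j, M i j * V i j : ℝ) : ℂ) := by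
    unfold bf had
    push_cast
    simp [M', A]
  rw [h4, h5, Complex.norm_real] at h3
  have hn' : (0 : ℝ) < n := by exact_mod_cast hn
  have h6 : √(n : ℝ) * √n = n := Real.mul_self_sqrt hn'.le
  rw [div_le_iff₀ hn']
  have h7 : opN (had M' A) * √n * √n = opN (had M' A) * n := by rw [mul_assoc, h6]
  rw [h7] at h3
  calc (∑ i, ∑ j, M i j * V i j) ≤ ‖∑ i, ∑ j, M i j * V i j‖ := Real.le_norm_self _
    _ ≤ opN (had M' A) * n := h3
    _ ≤ r n * n := by
        apply mul_le_mul_of_nonneg_right _ hn'.le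
        exact h1.trans h2

variable {ι : Type*} [Fintype ι] [DecidableEq ι]

lemma r_ge (hι : 0 < Fintype.card ι) (M V : Matrix ι ι ℝ) (hM : IsSign M) (hV : V * Vᵀ = 1) :
    (∑ i, ∑ j, M i j * V i j) / Fintype.card ι ≤ r (Fintype.card ι) := by
  let e := Fintype.equivFin ι
  have h := r_ge_fin hι (M.submatrix e.symm e.symm) (V.submatrix e.symm e.symm)
    (fun i j => hM _ _) (by
      rw [Matrix.transpose_submatrix, Matrix.submatrix_mul_equiv, hV]
      exact Matrix.submatrix_one_equiv e.symm)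
  have h2 : (∑ i, ∑ j, M i j * V i j) = ∑ i : Fin (Fintype.card ι), ∑ j : Fin (Fintype.card ι),
      (M.submatrix e.symm e.symm) i j * (V.submatrix e.symm e.symm) i j := by
    rw [← e.symm.sum_comp]
    refine Finset.sum_congr rfl fun i _ => ?_
    rw [← e.symm.sum_comp]
    rfl
  rw [h2]
  exact h

/-- The spectral decomposition of `M Mᵀ`. -/
lemma spec (M : Matrix ι ι ℝ) : ∃ (U : Matrix ι ι ℝ) (lam : ι → ℝ), U * Uᵀ = 1 ∧ Uᵀ * U = 1 ∧
    M * Mᵀ = U * diagonal lam * Uᵀ := by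
  have hS : (M * Mᵀ).IsHermitian := by
    have := Matrix.isHermitian_mul_conjTranspose_self M
    rwa [Matrix.conjTranspose_eq_transpose_of_trivial] at this
  refine ⟨(hS.eigenvectorUnitary : Matrix ι ι ℝ), hS.eigenvalues, ?_, ?_, ?_⟩
  · have := Unitary.coe_mul_star_self hS.eigenvectorUnitary
    rwa [Unitary.coe_star, Matrix.star_eq_conjTranspose,
      Matrix.conjTranspose_eq_transpose_of_trivial] at this
  · have := Unitary.coe_star_mul_self hS.eigenvectorUnitary
    rwa [Matrix.star_eq_conjTranspose, Matrix.conjTranspose_eq_transpose_of_trivial] at this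
  · have := hS.spectral_theorem
    rw [Unitary.conjStarAlgAut_apply, Matrix.star_eq_conjTranspose,
      Matrix.conjTranspose_eq_transpose_of_trivial] at this
    exact this

/-- The scalar inequality. -/
lemma scal {s : ℝ} (hs : √2 - 1 ≤ s) : 1 + (s ^ 2 - 1) / 2 - (s ^ 2 - 1) ^ 2 / 4 ≤ s := by
  have h2 : √2 * √2 = (2 : ℝ) := Real.mul_self_sqrt (by norm_num)
  have h0 : 0 ≤ √2 := Real.sqrt_nonneg 2
  have h1 : 2 ≤ (s + 1) ^ 2 := by nlinarith
  have h3 : s - (1 + (s ^ 2 - 1) / 2 - (s ^ 2 - 1) ^ 2 / 4) = (s - 1) ^ 2 * ((s + 1) ^ 2 - 2) / 4 := by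
    ring
  have h4 : 0 ≤ (s - 1) ^ 2 * ((s + 1) ^ 2 - 2) / 4 := by
    have : 0 ≤ (s - 1) ^ 2 * ((s + 1) ^ 2 - 2) := mul_nonneg (sq_nonneg _) (by linarith)
    linarith
  linarith

/-- The lower bound from the sum of the singular values. -/
lemma r_ge_spec (hι : 0 < Fintype.card ι) (M : Matrix ι ι ℝ) (hM : IsSign M)
    (c : ℝ) (hc : 0 < c)
    (h3 : ∀ w : ι → ℝ, c * ∑ i, w i ^ 2 ≤ ∑ j, (∑ i, w i * M i j) ^ 2) :
    ∃ lam : ι → ℝ, (∀ i, c ≤ lam i) ∧ (∑ i, lam i = ∑ i, (M * Mᵀ) i i) ∧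
      (∑ i, lam i ^ 2 = ∑ i, ∑ j, ((M * Mᵀ) i j) ^ 2) ∧
      (∑ i, √(lam i)) / Fintype.card ι ≤ r (Fintype.card ι) := by
  obtain ⟨U, lam, hU1, hU2, hS⟩ := spec M
  have hD : (Uᵀ * M) * (Uᵀ * M)ᵀ = diagonal lam := by
    rw [Matrix.transpose_mul, Matrix.transpose_transpose]
    calc Uᵀ * M * (Mᵀ * U) = Uᵀ * (M * Mᵀ) * U := by simp only [Matrix.mul_assoc]
      _ = (Uᵀ * U) * diagonal lam * (Uᵀ * U) := by rw [hS]; simp only [Matrix.mul_assoc]
      _ = diagonal lam := by rw [hU2]; simp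
  have hlam : ∀ i, c ≤ lam i := by
    intro i
    have h1 := h3 (fun k => U k i)
    have h2 : ∑ k, U k i ^ 2 = 1 := by
      have := congrFun (congrFun hU2 i) i
      rw [Matrix.mul_apply, Matrix.one_apply_eq] at this
      rw [← this]
      exact Finset.sum_congr rfl fun k _ => by rw [Matrix.transpose_apply]; ring
    have h4 : ∑ j, (∑ k, U k i * M k j) ^ 2 = lam i := by
      have := congrFun (congrFun hD i) i
      rw [Matrix.mul_apply, Matrix.diagonal_apply_eq] at this
      rw [← this]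
      refine Finset.sum_congr rfl fun j _ => ?_
      rw [Matrix.transpose_apply, Matrix.mul_apply, sq]
      rfl
    rw [h2, h4] at h1
    linarith
  have hpos : ∀ i, 0 < lam i := fun i => lt_of_lt_of_le hc (hlam i)
  refine ⟨lam, hlam, ?_, ?_, ?_⟩
  · have h1 : trace (M * Mᵀ) = ∑ i, lam i := by
      rw [hS, Matrix.trace_mul_comm, ← Matrix.mul_assoc, hU2, Matrix.one_mul, Matrix.trace_diagonal]
    rw [← h1]
    rfl
  · have h1 : trace ((M * Mᵀ) * (M * Mᵀ)ᵀ) = ∑ i, lam i ^ 2 := by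
      have hSt : (M * Mᵀ)ᵀ = M * Mᵀ := by rw [Matrix.transpose_mul, Matrix.transpose_transpose]
      rw [hSt]
      have : M * Mᵀ * (M * Mᵀ) = U * (diagonal lam * diagonal lam) * Uᵀ := by
        rw [hS]
        calc U * diagonal lam * Uᵀ * (U * diagonal lam * Uᵀ)
            = U * diagonal lam * (Uᵀ * U) * diagonal lam * Uᵀ := by simp only [Matrix.mul_assoc]
          _ = _ := by rw [hU2]; simp only [Matrix.mul_assoc, Matrix.one_mul]
      rw [this, Matrix.trace_mul_comm, ← Matrix.mul_assoc, hU2, Matrix.one_mul,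
        Matrix.diagonal_mul_diagonal, Matrix.trace_diagonal]
      exact Finset.sum_congr rfl fun i _ => by ring
    rw [← h1, Matrix.trace]
    refine Finset.sum_congr rfl fun i _ => ?_
    rw [Matrix.diag_apply, Matrix.mul_apply]
    refine Finset.sum_congr rfl fun j _ => ?_
    rw [Matrix.transpose_apply, sq]
  · set D : Matrix ι ι ℝ := diagonal (fun i => (√(lam i))⁻¹) with hDd
    set V : Matrix ι ι ℝ := U * D * Uᵀ * M with hV
    have hDt : Dᵀ = D := Matrix.diagonal_transpose _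
    have hsq : ∀ i, √(lam i) ≠ 0 := fun i => (Real.sqrt_pos.2 (hpos i)).ne'
    have hVt : Vᵀ = Mᵀ * U * D * Uᵀ := by
      rw [hV]
      simp only [Matrix.transpose_mul, Matrix.transpose_transpose, hDt, Matrix.mul_assoc]
    have hDlam : D * diagonal lam = diagonal (fun i => √(lam i)) := by
      rw [hDd, Matrix.diagonal_mul_diagonal]
      congr 1
      funext i
      rw [inv_mul_eq_div, div_eq_iff (hsq i), Real.mul_self_sqrt (hpos i).le]
    have hD1 : D * diagonal lam * D = 1 := by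
      rw [hDlam, hDd, Matrix.diagonal_mul_diagonal, ← Matrix.diagonal_one]
      congr 1
      funext i
      exact mul_inv_cancel₀ (hsq i)
    have hVV : V * Vᵀ = 1 := by
      rw [hVt, hV]
      calc U * D * Uᵀ * M * (Mᵀ * U * D * Uᵀ)
          = U * D * Uᵀ * (M * Mᵀ) * (U * D * Uᵀ) := by simp only [Matrix.mul_assoc]
        _ = U * D * (Uᵀ * U) * diagonal lam * (Uᵀ * U) * D * Uᵀ := by
            rw [hS]; simp only [Matrix.mul_assoc]
        _ = U * (D * diagonal lam * D) * Uᵀ := by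
            rw [hU2]; simp only [Matrix.mul_assoc, Matrix.one_mul]
        _ = 1 := by rw [hD1, Matrix.mul_one, hU1]
    have htr : ∑ i, ∑ j, M i j * V i j = ∑ i, √(lam i) := by
      have h1 : trace (V * Mᵀ) = ∑ i, √(lam i) := by
        rw [hV]
        calc trace (U * D * Uᵀ * M * Mᵀ) = trace (U * D * Uᵀ * (M * Mᵀ)) := by
              simp only [Matrix.mul_assoc]
          _ = trace (U * (D * diagonal lam) * Uᵀ) := by
              rw [hS]
              congr 1
              calc U * D * Uᵀ * (U * diagonal lam * Uᵀ)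
                  = U * D * (Uᵀ * U) * diagonal lam * Uᵀ := by simp only [Matrix.mul_assoc]
                _ = _ := by rw [hU2]; simp only [Matrix.mul_assoc, Matrix.one_mul]
          _ = ∑ i, √(lam i) := by
              rw [Matrix.trace_mul_comm, ← Matrix.mul_assoc, hU2, Matrix.one_mul, hDlam,
                Matrix.trace_diagonal]
      rw [← h1, Matrix.trace]
      refine Finset.sum_congr rfl fun i _ => ?_
      rw [Matrix.diag_apply, Matrix.mul_apply]
      refine Finset.sum_congr rfl fun j _ => ?_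
      rw [Matrix.transpose_apply, mul_comm]
    rw [← htr]
    exact r_ge hι M V hM hVV

/-- The criterion. -/
theorem criterion (hι : 0 < Fintype.card ι) (M : Matrix ι ι ℝ) (hM : IsSign M)
    (h2 : ∑ i, ∑ j ∈ univ.erase i, (∑ k, M i k * M j k) ^ 2 ≤ 2 * (Fintype.card ι : ℝ) ^ 2)
    (h3 : ∀ w : ι → ℝ, (√2 - 1) ^ 2 * (Fintype.card ι : ℝ) * ∑ i, w i ^ 2 ≤
      ∑ j, (∑ i, w i * M i j) ^ 2) :
    √(Fintype.card ι) * (1 - 1 / (2 * (Fintype.card ι : ℝ))) ≤ r (Fintype.card ι) := by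
  set n : ℝ := (Fintype.card ι : ℝ) with hn
  have hn0 : 0 < n := by rw [hn]; exact_mod_cast hι
  have hs2 : 1 < √2 := by
    rw [Real.lt_sqrt (by norm_num)]; norm_num
  have hs21 : 0 < √2 - 1 := by linarith
  obtain ⟨lam, hl1, hl2, hl3, hl4⟩ := r_ge_spec hι M hM ((√2 - 1) ^ 2 * n) (by positivity) h3
  have hdiag : ∀ i, (M * Mᵀ) i i = n := by
    intro i
    rw [Matrix.mul_apply]
    have : ∀ k, M i k * Mᵀ k i = 1 := by
      intro k
      rw [Matrix.transpose_apply]
      rcases hM i k with h | h <;> rw [h] <;> norm_num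
    rw [Finset.sum_congr rfl fun k _ => this k]
    simp [hn]
  have hl2' : ∑ i, lam i = n * n := by
    rw [hl2, Finset.sum_congr rfl fun i _ => hdiag i]
    simp [hn]
  have hl3' : ∑ i, lam i ^ 2 ≤ n ^ 3 + 2 * n ^ 2 := by
    rw [hl3]
    have : ∀ i, ∑ j, ((M * Mᵀ) i j) ^ 2 = n ^ 2 + ∑ j ∈ univ.erase i, (∑ k, M i k * M j k) ^ 2 := by
      intro i
      rw [← Finset.add_sum_erase _ _ (Finset.mem_univ i), hdiag i]
      rfl
    rw [Finset.sum_congr rfl fun i _ => this i, Finset.sum_add_distrib]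
    have h5 : ∑ _i : ι, n ^ 2 = n ^ 3 := by
      rw [Finset.sum_const, Finset.card_univ, nsmul_eq_mul, ← hn]; ring
    rw [h5]
    linarith
  have hsn : √n * √n = n := Real.mul_self_sqrt hn0.le
  have hsn0 : 0 < √n := Real.sqrt_pos.2 hn0
  have hkey : ∀ i, √n * (1 + (lam i / n - 1) / 2 - (lam i / n - 1) ^ 2 / 4) ≤ √(lam i) := by
    intro i
    have hl0 : 0 ≤ lam i := le_trans (by positivity) (hl1 i)
    have h6 : √2 - 1 ≤ √(lam i / n) := by
      apply Real.le_sqrt_of_sq_le
      rw [le_div_iff₀ hn0]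
      exact hl1 i
    have h7 := scal h6
    rw [Real.sq_sqrt (div_nonneg hl0 hn0.le)] at h7
    have h8 : √(lam i) = √n * √(lam i / n) := by
      rw [← Real.sqrt_mul hn0.le]
      congr 1
      field_simp
    rw [h8]
    exact mul_le_mul_of_nonneg_left h7 hsn0.le
  have hsum : √n * (n - 1 / 2) ≤ ∑ i, √(lam i) := by
    refine le_trans ?_ (Finset.sum_le_sum fun i _ => hkey i)
    rw [← Finset.mul_sum]
    apply mul_le_mul_of_nonneg_left _ hsn0.le
    have h9 : ∀ i, 1 + (lam i / n - 1) / 2 - (lam i / n - 1) ^ 2 / 4 =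
        1 / 4 + lam i * (1 / n) - lam i ^ 2 * (1 / (4 * n ^ 2)) := by
      intro i
      field_simp
      ring
    rw [Finset.sum_congr rfl fun i _ => h9 i, Finset.sum_sub_distrib, Finset.sum_add_distrib,
      ← Finset.sum_mul, ← Finset.sum_mul, hl2']
    have h10 : (∑ i, lam i ^ 2) * (1 / (4 * n ^ 2)) ≤ (n ^ 3 + 2 * n ^ 2) * (1 / (4 * n ^ 2)) :=
      mul_le_mul_of_nonneg_right hl3' (by positivity)
    have h11 : (n ^ 3 + 2 * n ^ 2) * (1 / (4 * n ^ 2)) = n / 4 + 1 / 2 := by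
      field_simp
      ring
    have h12 : ∑ _i : ι, (1 / 4 : ℝ) = n / 4 := by
      rw [Finset.sum_const, Finset.card_univ, nsmul_eq_mul, ← hn]; ring
    have h13 : n * n * (1 / n) = n := by field_simp
    rw [h12, h13]
    linarith
  refine le_trans ?_ hl4
  rw [le_div_iff₀ hn0]
  refine le_trans (le_of_eq ?_) hsum
  field_simp

/-- The bound of the criterion is larger than `√(n - 1)`. -/
lemma sqrt_lt {n : ℝ} (hn : 1 ≤ n) : √(n - 1) < √n * (1 - 1 / (2 * n)) := by
  have hn0 : 0 < n := by linarith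
  have h1 : 0 < 1 - 1 / (2 * n) := by
    have : 1 / (2 * n) < 1 := by
      rw [div_lt_one (by positivity)]; linarith
    linarith
  have h2 : √n * (1 - 1 / (2 * n)) = √(n * (1 - 1 / (2 * n)) ^ 2) := by
    rw [Real.sqrt_mul hn0.le, Real.sqrt_sq h1.le]
  rw [h2]
  apply Real.sqrt_lt_sqrt (by linarith)
  have h3 : n * (1 - 1 / (2 * n)) ^ 2 = n - 1 + 1 / (4 * n) := by
    field_simp
    ring
  rw [h3]
  have : 0 < 1 / (4 * n) := by positivity
  linarith

end Pool.Agent.KS6_96.SC
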