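import Pool.Agent.KS6_96.SC.Lower

/-! Hadamard and conference matrices: lower bounds for `r`. -/

namespace Pool.Agent.KS6_96.SC

open Finset Matrix

/-- there is a Hadamard matrix of order `n` -/
def HadOrder (n : ℕ) : Prop :=
  ∃ H : Matrix (Fin n) (Fin n) ℝ, IsSign H ∧ H * Hᵀ = (n : ℝ) • (1 : Matrix (Fin n) (Fin n) ℝ)

/-- there is a symmetric conference matrix of order `n` -/
def ConfOrder (n : ℕ) : Prop :=
  ∃ C : Matrix (Fin n) (Fin n) ℝ, (∀ i, C i i = 0) ∧ (∀ i j, i ≠ j → C i j = 1 ∨ C i j = -1) ∧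
    Cᵀ = C ∧ C * Cᵀ = ((n : ℝ) - 1) • (1 : Matrix (Fin n) (Fin n) ℝ)

lemma hadOrder_of {ι : Type*} [Fintype ι] [DecidableEq ι] (H : Matrix ι ι ℝ) (hH : IsSign H)
    (h : H * Hᵀ = (Fintype.card ι : ℝ) • (1 : Matrix ι ι ℝ)) : HadOrder (Fintype.card ι) := by
  let e := Fintype.equivFin ι
  refine ⟨H.submatrix e.symm e.symm, fun i j => hH _ _, ?_⟩
  rw [Matrix.transpose_submatrix, Matrix.submatrix_mul_equiv, h]
  rw [← Matrix.submatrix_one_equiv e.symm]
  rfl

lemma confOrder_of {ι : Type*} [Fintype ι] [DecidableEq ι] (C : Matrix ι ι ℝ)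
    (h0 : ∀ i, C i i = 0) (h1 : ∀ i j, i ≠ j → C i j = 1 ∨ C i j = -1) (h2 : Cᵀ = C)
    (h : C * Cᵀ = ((Fintype.card ι : ℝ) - 1) • (1 : Matrix ι ι ℝ)) :
    ConfOrder (Fintype.card ι) := by
  let e := Fintype.equivFin ι
  refine ⟨C.submatrix e.symm e.symm, fun i => h0 _, fun i j hij => h1 _ _ (fun h => hij ?_), ?_, ?_⟩
  · exact e.symm.injective h
  · rw [Matrix.transpose_submatrix, h2]
  · rw [Matrix.transpose_submatrix, Matrix.submatrix_mul_equiv, h]
    rw [← Matrix.submatrix_one_equiv e.symm]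
    rfl

/-- Kronecker products. -/
lemma HadOrder.mul {m n : ℕ} (hm : HadOrder m) (hn : HadOrder n) : HadOrder (m * n) := by
  obtain ⟨A, hA, hA2⟩ := hm
  obtain ⟨B, hB, hB2⟩ := hn
  have h := hadOrder_of (Matrix.kroneckerMap (· * ·) A B) (fun i j => ?_) ?_
  · rw [Fintype.card_prod, Fintype.card_fin, Fintype.card_fin] at h
    exact h
  · rw [Matrix.kroneckerMap_apply]
    rcases hA i.1 j.1 with h | h <;> rcases hB i.2 j.2 with h' | h' <;> rw [h, h'] <;> norm_num
  · rw [← Matrix.kroneckerMap_transpose]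
    have h5 := Matrix.mul_kronecker_mul A Aᵀ B Bᵀ
    have h6 : (Matrix.kroneckerMap (· * ·) A B) * (Matrix.kroneckerMap (· * ·) Aᵀ Bᵀ) =
        Matrix.kroneckerMap (· * ·) (A * Aᵀ) (B * Bᵀ) := h5.symm
    rw [h6, hA2, hB2]
    ext i j
    rw [Matrix.kroneckerMap_apply]
    simp only [Matrix.smul_apply, smul_eq_mul, Fintype.card_prod, Fintype.card_fin, Nat.cast_mul,
      Matrix.one_apply, Prod.ext_iff]
    by_cases h1 : i.1 = j.1 <;> by_cases h2 : i.2 = j.2 <;> simp [h1, h2]

lemma hadOrder_one : HadOrder 1 :=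
  ⟨Matrix.of fun _ _ => 1, fun _ _ => Or.inl rfl, by
    ext i j
    fin_cases i; fin_cases j
    simp [Matrix.mul_apply]⟩

lemma hadOrder_two : HadOrder 2 :=
  ⟨!![1, 1; 1, -1], fun i j => by fin_cases i <;> fin_cases j <;> simp, by
    ext i j
    fin_cases i <;> fin_cases j <;> simp [Matrix.mul_apply, Fin.sum_univ_two] <;> norm_num⟩

lemma hadOrder_pow (k : ℕ) : HadOrder (2 ^ k) := by
  induction k with
  | zero => exact hadOrder_one
  | succ k ih => rw [pow_succ]; exact ih.mul hadOrder_two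

/-- Hadamard orders. -/
lemma r_had {n : ℕ} (hn : 0 < n) (h : HadOrder n) : √(n : ℝ) ≤ r n := by
  obtain ⟨H, hH, hH2⟩ := h
  have hn' : (0 : ℝ) < n := by exact_mod_cast hn
  have hs : √(n : ℝ) * √n = n := Real.mul_self_sqrt hn'.le
  have hs0 : 0 < √(n : ℝ) := Real.sqrt_pos.2 hn'
  have h1 := r_ge_fin hn H ((√(n : ℝ))⁻¹ • H) hH (by
    have h9 : (√(n : ℝ))⁻¹ * (√(n : ℝ))⁻¹ * (√(n : ℝ) * √(n : ℝ)) = 1 := by field_simp
    rw [hs] at h9
    rw [Matrix.transpose_smul, Matrix.smul_mul, Matrix.mul_smul, hH2, smul_smul, smul_smul, h9,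
      one_smul])
  refine le_trans (le_of_eq ?_) h1
  have h2 : ∀ i j, H i j * ((√(n : ℝ))⁻¹ • H) i j = (√(n : ℝ))⁻¹ := by
    intro i j
    rw [Matrix.smul_apply, smul_eq_mul]
    rcases hH i j with h | h <;> rw [h] <;> ring
  rw [Finset.sum_congr rfl fun i _ => Finset.sum_congr rfl fun j _ => h2 i j]
  simp only [Finset.sum_const, Finset.card_univ, Fintype.card_fin, nsmul_eq_mul]
  rw [eq_div_iff hn'.ne']
  field_simp
  rw [Real.sq_sqrt hn'.le]

/-- One less than a Hadamard order. -/
lemma r_core {n : ℕ} (hn : 0 < n) (h : HadOrder (n + 1)) :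
    (((n : ℝ) - 1) * √((n : ℝ) + 1) + 1) / n ≤ r n := by
  obtain ⟨H, hH, hH2⟩ := h
  have hn' : (0 : ℝ) < n := by exact_mod_cast hn
  have hsq : ∀ i j, H i j * H i j = 1 := by
    intro i j
    rcases hH i j with h | h <;> rw [h] <;> norm_num
  have horth : ∀ i k, ∑ j, H i j * H k j = if i = k then (n : ℝ) + 1 else 0 := by
    intro i k
    have h1 := congrFun (congrFun hH2 i) k
    rw [Matrix.mul_apply, Matrix.smul_apply, smul_eq_mul, Matrix.one_apply] at h1
    simp only [Matrix.transpose_apply] at h1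
    rw [h1]
    push_cast
    split_ifs <;> ring
  set M : Matrix (Fin n) (Fin n) ℝ :=
    Matrix.of fun i j => H i.succ j.succ * H 0 j.succ * H i.succ 0 * H 0 0 with hM
  have hMs : IsSign M := by
    intro i j
    simp only [hM, Matrix.of_apply]
    rcases hH i.succ j.succ with h | h <;> rcases hH 0 j.succ with h' | h' <;>
      rcases hH i.succ 0 with h'' | h'' <;> rcases hH 0 0 with h3 | h3 <;> rw [h, h', h'', h3] <;>
      norm_num
  have hrow : ∀ i, ∑ j, M i j = -1 := by
    intro i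
    have h1 := horth i.succ 0
    rw [Fin.sum_univ_succ, if_neg (Fin.succ_ne_zero i)] at h1
    have h2 : ∑ j : Fin n, H i.succ j.succ * H 0 j.succ = -(H i.succ 0 * H 0 0) := by linarith
    have h3 : ∑ j, M i j = (∑ j : Fin n, H i.succ j.succ * H 0 j.succ) * (H i.succ 0 * H 0 0) := by
      rw [Finset.sum_mul]
      exact Finset.sum_congr rfl fun j _ => by simp only [hM, Matrix.of_apply]; ring
    rw [h3, h2]
    have h4 := hsq i.succ 0
    have h5 := hsq 0 0
    calc -(H i.succ 0 * H 0 0) * (H i.succ 0 * H 0 0)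
        = -((H i.succ 0 * H i.succ 0) * (H 0 0 * H 0 0)) := by ring
      _ = -1 := by rw [h4, h5]; norm_num
  have hMM : ∀ i k, ∑ j, M i j * M k j = if i = k then (n : ℝ) else -1 := by
    intro i k
    have h1 := horth i.succ k.succ
    rw [Fin.sum_univ_succ] at h1
    have h3 : ∑ j, M i j * M k j =
        (∑ j : Fin n, H i.succ j.succ * H k.succ j.succ) * (H i.succ 0 * H k.succ 0) := by
      rw [Finset.sum_mul]
      refine Finset.sum_congr rfl fun j _ => ?_
      simp only [hM, Matrix.of_apply]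
      have h4 := hsq 0 j.succ
      have h5 := hsq 0 0
      calc H i.succ j.succ * H 0 j.succ * H i.succ 0 * H 0 0 *
            (H k.succ j.succ * H 0 j.succ * H k.succ 0 * H 0 0)
          = H i.succ j.succ * H k.succ j.succ * (H i.succ 0 * H k.succ 0) *
            (H 0 j.succ * H 0 j.succ) * (H 0 0 * H 0 0) := by ring
        _ = _ := by rw [h4, h5]; ring
    have h2 : ∑ j : Fin n, H i.succ j.succ * H k.succ j.succ =
      (if i.succ = k.succ then (n : ℝ) + 1 else 0) - H i.succ 0 * H k.succ 0 := by linarith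
    rw [h3, h2]
    by_cases hik : i = k
    · subst hik
      rw [if_pos rfl, if_pos rfl, hsq i.succ 0]
      ring
    · rw [if_neg (fun h => hik (Fin.succ_injective _ h)), if_neg hik]
      have h4 := hsq i.succ 0
      have h5 := hsq k.succ 0
      calc (0 - H i.succ 0 * H k.succ 0) * (H i.succ 0 * H k.succ 0)
          = -((H i.succ 0 * H i.succ 0) * (H k.succ 0 * H k.succ 0)) := by ring
        _ = -1 := by rw [h4, h5]; norm_num
  set x : ℝ := √((n : ℝ) + 1) with hx
  have hx2 : x * x = n + 1 := Real.mul_self_sqrt (by positivity)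
  have hx0 : 0 < x := Real.sqrt_pos.2 (by positivity)
  set a : ℝ := x⁻¹ with ha
  set b : ℝ := (1 - a) / n with hb
  have ha2 : a * a * (n + 1) = 1 := by
    rw [← hx2, ha]; field_simp
  have hbn : b * n = 1 - a := by rw [hb]; field_simp
  have hab : -(a * a) + 2 * (a * b) + b * b * n = 0 := by
    have h1 : n * (-(a * a) + 2 * (a * b) + b * b * n) = 0 := by
      calc (n : ℝ) * (-(a * a) + 2 * (a * b) + b * b * n)
          = -(a * a * n) + 2 * a * (b * n) + (b * n) * (b * n) := by ring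
        _ = -(a * a * n) + 2 * a * (1 - a) + (1 - a) * (1 - a) := by rw [hbn]
        _ = 1 - a * a * (n + 1) := by ring
        _ = 0 := by rw [ha2]; ring
    rcases mul_eq_zero.1 h1 with h | h
    · exact absurd h hn'.ne'
    · exact h
  set V : Matrix (Fin n) (Fin n) ℝ := Matrix.of fun i j => a * M i j - b with hV
  have hVV : V * Vᵀ = 1 := by
    ext i k
    rw [Matrix.mul_apply, Matrix.one_apply]
    have h1 : ∀ j, V i j * Vᵀ j k = a * a * (M i j * M k j) - a * b * M i j - a * b * M k j + b * b := by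
      intro j
      rw [Matrix.transpose_apply, hV, Matrix.of_apply, Matrix.of_apply]
      ring
    rw [Finset.sum_congr rfl fun j _ => h1 j, Finset.sum_add_distrib, Finset.sum_sub_distrib,
      Finset.sum_sub_distrib, ← Finset.mul_sum, ← Finset.mul_sum, ← Finset.mul_sum, hMM, hrow, hrow]
    simp only [Finset.sum_const, Finset.card_univ, Fintype.card_fin, nsmul_eq_mul]
    split_ifs
    · linarith
    · linarith
  have h1 := r_ge_fin hn M V hMs hVV
  refine le_trans (le_of_eq ?_) h1
  have h2 : ∑ i, ∑ j, M i j * V i j = a * (n * n) + b * n := by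
    have h3 : ∀ i, ∑ j, M i j * V i j = a * n + b := by
      intro i
      have h4 : ∀ j, M i j * V i j = a * (M i j * M i j) - b * M i j := by
        intro j
        rw [hV, Matrix.of_apply]
        ring
      rw [Finset.sum_congr rfl fun j _ => h4 j, Finset.sum_sub_distrib, ← Finset.mul_sum,
        ← Finset.mul_sum, hMM, hrow, if_pos rfl]
      ring
    rw [Finset.sum_congr rfl fun i _ => h3 i]
    simp only [Finset.sum_const, Finset.card_univ, Fintype.card_fin, nsmul_eq_mul]
    ring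
  rw [h2, hbn]
  congr 1
  have h5 : (n : ℝ) * n = (x * x - 1) * (x * x - 1) := by rw [hx2]; ring
  have h6 : (n : ℝ) - 1 = x * x - 2 := by linarith
  rw [h5, h6, ha]
  field_simp
  ring

lemma core_gt {n : ℝ} (hn : 1 ≤ n) : √(n - 1) < ((n - 1) * √(n + 1) + 1) / n := by
  have hn0 : 0 < n := by linarith
  set x := √(n + 1) with hx
  have hx2 : x * x = n + 1 := Real.mul_self_sqrt (by positivity)
  have hx1 : 1 ≤ x := by
    rw [hx, Real.one_le_sqrt]; linarith
  have hp : 0 < ((n - 1) * x + 1) / n := by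
    apply div_pos _ hn0
    have : 0 ≤ (n - 1) * x := mul_nonneg (by linarith) (by linarith)
    linarith
  rw [Real.sqrt_lt' hp, div_pow, lt_div_iff₀ (by positivity)]
  have h1 : ((n - 1) * x + 1) ^ 2 = (n - 1) ^ 2 * (x * x) + 2 * ((n - 1) * x) + 1 := by ring
  rw [h1, hx2]
  have h2 : (n - 1) ≤ (n - 1) * x := by nlinarith
  nlinarith

/-- An alternating sign vector. -/
lemma alt_sum (n : ℕ) : (∑ i : Fin n, (-1 : ℝ) ^ (i : ℕ)) ^ 2 ≤ 1 := by
  rw [Fin.sum_univ_eq_sum_range (fun i => (-1 : ℝ) ^ i) n, neg_one_geom_sum]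
  split_ifs <;> norm_num

/-- Orders `n ≥ 5` of symmetric conference matrices. -/
lemma r_conf {n : ℕ} (hn : 5 ≤ n) (h : ConfOrder n) :
    √(n : ℝ) * (1 - 1 / (2 * (n : ℝ))) ≤ r n := by
  obtain ⟨C, hC0, hC1, hCt, hCC⟩ := h
  have hn5 : (5 : ℝ) ≤ n := by exact_mod_cast hn
  set d : Fin n → ℝ := fun i => (-1 : ℝ) ^ (i : ℕ) with hd
  have hd2 : ∀ i, d i * d i = 1 := by
    intro i
    rw [hd]
    simp only [← mul_pow]
    norm_num
  have hdd : ∀ i, d i = 1 ∨ d i = -1 := fun i => neg_one_pow_eq_or ℝ (i : ℕ)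
  set M : Matrix (Fin n) (Fin n) ℝ := C + diagonal d with hM
  have hMs : IsSign M := by
    intro i j
    rw [hM, Matrix.add_apply]
    by_cases hij : i = j
    · subst hij
      rw [hC0, Matrix.diagonal_apply_eq, zero_add]
      exact hdd i
    · rw [Matrix.diagonal_apply_ne _ hij, add_zero]
      exact hC1 i j hij
  have hMM : ∀ i j, i ≠ j → ∑ k, M i k * M j k = C i j * (d i + d j) := by
    intro i j hij
    have h1 : M * Mᵀ = C * Cᵀ + C * diagonal d + diagonal d * C + diagonal d * diagonal d := by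
      rw [hM, Matrix.transpose_add, Matrix.diagonal_transpose, hCt]
      simp only [Matrix.add_mul, Matrix.mul_add]
      abel
    have h2 := congrFun (congrFun h1 i) j
    rw [Matrix.mul_apply] at h2
    simp only [Matrix.transpose_apply] at h2
    rw [h2]
    simp only [Matrix.add_apply, Matrix.mul_diagonal, Matrix.diagonal_mul, hCC,
      Matrix.smul_apply, Matrix.one_apply_ne hij, Matrix.diagonal_mul_diagonal,
      Matrix.diagonal_apply_ne _ hij]
    simp
    ring
  have hsum : ∑ i, ∑ j ∈ univ.erase i, (∑ k, M i k * M j k) ^ 2 ≤ 2 * (n : ℝ) ^ 2 := by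
    have h1 : ∀ i, ∑ j ∈ univ.erase i, (∑ k, M i k * M j k) ^ 2 =
        (∑ j, (2 + 2 * (d i * d j))) - 4 := by
      intro i
      rw [← Finset.add_sum_erase _ _ (Finset.mem_univ i), hd2 i]
      have h2 : ∑ j ∈ univ.erase i, (∑ k, M i k * M j k) ^ 2 =
          ∑ j ∈ univ.erase i, (2 + 2 * (d i * d j)) := by
        refine Finset.sum_congr rfl fun j hj => ?_
        have hij : i ≠ j := fun h => (Finset.ne_of_mem_erase hj) h.symm
        rw [hMM i j hij]
        have h3 : C i j * C i j = 1 := by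
          rcases hC1 i j hij with h | h <;> rw [h] <;> norm_num
        calc (C i j * (d i + d j)) ^ 2
            = (C i j * C i j) * (d i * d i + d j * d j + 2 * (d i * d j)) := by ring
          _ = 2 + 2 * (d i * d j) := by rw [h3, hd2, hd2]; ring
      rw [h2]
      ring
    rw [Finset.sum_congr rfl fun i _ => h1 i, Finset.sum_sub_distrib]
    have h4 : ∀ i, ∑ j, (2 + 2 * (d i * d j)) = 2 * (n : ℝ) + 2 * d i * ∑ j, d j := by
      intro i
      rw [Finset.sum_add_distrib, Finset.mul_sum]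
      congr 1
      · simp; ring
      · exact Finset.sum_congr rfl fun j _ => by ring
    have h6' : ∑ x, 2 * d x * ∑ j, d j = 2 * (∑ j, d j) ^ 2 := by
      rw [← Finset.sum_mul, ← Finset.mul_sum]; ring
    rw [Finset.sum_congr rfl fun i _ => h4 i, Finset.sum_add_distrib, h6']
    simp only [Finset.sum_const, Finset.card_univ, Fintype.card_fin, nsmul_eq_mul]
    have h5 := alt_sum n
    have h6 : (∑ i, d i) ^ 2 ≤ 1 := h5
    nlinarith
  have hsing : ∀ w : Fin n → ℝ, (√2 - 1) ^ 2 * (n : ℝ) * ∑ i, w i ^ 2 ≤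
      ∑ j, (∑ i, w i * M i j) ^ 2 := by
    intro w
    set A : Fin n → ℝ := fun j => ∑ i, w i * C i j with hA
    set W := ∑ i, w i ^ 2 with hW
    have hW0 : 0 ≤ W := Finset.sum_nonneg fun i _ => sq_nonneg _
    have hA2 : ∑ j, A j ^ 2 = ((n : ℝ) - 1) * W := by
      have h1 : ∑ j, A j ^ 2 = ∑ i, ∑ k, w i * w k * (C * Cᵀ) i k := by
        have h2 : ∀ j, A j ^ 2 = ∑ i, ∑ k, w i * w k * (C i j * C k j) := by
          intro j
          rw [hA, sq, Finset.sum_mul_sum]
          exact Finset.sum_congr rfl fun i _ => Finset.sum_congr rfl fun k _ => by ring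
        rw [Finset.sum_congr rfl fun j _ => h2 j, Finset.sum_comm]
        refine Finset.sum_congr rfl fun i _ => ?_
        rw [Finset.sum_comm]
        refine Finset.sum_congr rfl fun k _ => ?_
        rw [Matrix.mul_apply, Finset.mul_sum]
        rfl
      rw [h1, hCC, hW, Finset.mul_sum]
      refine Finset.sum_congr rfl fun i _ => ?_
      rw [Finset.sum_eq_single i]
      · rw [Matrix.smul_apply, Matrix.one_apply_eq, smul_eq_mul]; ring
      · intro k _ hk
        rw [Matrix.smul_apply, Matrix.one_apply_ne (Ne.symm hk), smul_zero, mul_zero]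
      · intro h; exact absurd (Finset.mem_univ i) h
    have hB2 : ∑ j, (w j * d j) ^ 2 = W := by
      rw [hW]
      refine Finset.sum_congr rfl fun j _ => ?_
      calc (w j * d j) ^ 2 = w j ^ 2 * (d j * d j) := by ring
        _ = w j ^ 2 := by rw [hd2, mul_one]
    have hAB : ∀ j, ∑ i, w i * M i j = A j + w j * d j := by
      intro j
      rw [hA, hM]
      simp only [Matrix.add_apply, mul_add, Finset.sum_add_distrib]
      congr 1
      rw [Finset.sum_eq_single j]
      · rw [Matrix.diagonal_apply_eq]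
      · intro k _ hk
        rw [Matrix.diagonal_apply_ne _ hk, mul_zero]
      · intro h; exact absurd (Finset.mem_univ j) h
    have hCS := Finset.sum_mul_sq_le_sq_mul_sq univ A (fun j => w j * d j)
    rw [hA2, hB2] at hCS
    set P := ∑ j, A j * (w j * d j) with hP
    have htot : ∑ j, (∑ i, w i * M i j) ^ 2 = n * W + 2 * P := by
      have h1 : ∀ j, (∑ i, w i * M i j) ^ 2 =
          A j ^ 2 + (w j * d j) ^ 2 + 2 * (A j * (w j * d j)) := by
        intro j
        rw [hAB j]; ring
      rw [Finset.sum_congr rfl fun j _ => h1 j, Finset.sum_add_distrib, Finset.sum_add_distrib,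
        hA2, hB2, ← Finset.mul_sum]
      ring
    rw [htot]
    have hs2 : √2 * √2 = (2 : ℝ) := Real.mul_self_sqrt (by norm_num)
    have hs3 : √2 ≤ 1.4143 := by
      rw [Real.sqrt_le_left (by norm_num)]; norm_num
    have hs4 : 1 ≤ √2 := by
      rw [Real.one_le_sqrt]; norm_num
    set t := √2 - 1 with ht
    have ht2 : t * t = 3 - 2 * √2 := by rw [ht]; linarith [hs2]
    -- `n - 1 ≤ (t n)²`
    have hk : (n : ℝ) - 1 ≤ (t * n) ^ 2 := by
      have h1 : (t * n) ^ 2 = (t * t) * (n : ℝ) ^ 2 := by ring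
      rw [h1, ht2]
      nlinarith
    have hP2 : P ^ 2 ≤ (t * n * W) ^ 2 := by
      calc P ^ 2 ≤ ((n : ℝ) - 1) * W * W := hCS
        _ = ((n : ℝ) - 1) * (W * W) := by ring
        _ ≤ (t * n) ^ 2 * (W * W) := mul_le_mul_of_nonneg_right hk (by positivity)
        _ = _ := by ring
    have ht0 : 0 ≤ t := by linarith
    have hP3 : -(t * n * W) ≤ P := (abs_le_of_sq_le_sq' hP2 (by positivity)).1
    have h7 : (t ^ 2) * n * W = (1 - 2 * t) * n * W := by
      have : t ^ 2 = 1 - 2 * t := by rw [sq, ht2, ht]; ring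
      rw [this]
    rw [h7]
    linarith
  have hc := criterion (ι := Fin n) (by rw [Fintype.card_fin]; omega) M hMs
  rw [Fintype.card_fin] at hc
  exact hc hsum hsing

end Pool.Agent.KS6_96.SC
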