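import Mathlib

/-! Schur multiplier norms of sign matrices: a row and a column are doubled and one sign is
changed. -/

namespace Pool.Agent.KS6_96.SC

open Finset Matrix

/-- operator norm on `ℂⁿ` with the Euclidean norm -/
noncomputable def opN {n : ℕ} (A : Matrix (Fin n) (Fin n) ℂ) : ℝ :=
  ‖Matrix.toEuclideanCLM (n := Fin n) (𝕜 := ℂ) A‖

/-- the entrywise product -/
def had {n : ℕ} (M A : Matrix (Fin n) (Fin n) ℂ) : Matrix (Fin n) (Fin n) ℂ :=
  Matrix.of fun i j => M i j * A i j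

/-- the Schur multiplier norm -/
noncomputable def schurN {n : ℕ} (M : Matrix (Fin n) (Fin n) ℂ) : ℝ :=
  sSup {t : ℝ | ∃ A : Matrix (Fin n) (Fin n) ℂ, opN A ≤ 1 ∧ t = opN (had M A)}

/-- the sign matrices of order `n` -/
def Q (n : ℕ) : Set (Matrix (Fin n) (Fin n) ℂ) := {M | ∀ i j, M i j = 1 ∨ M i j = -1}

/-- the maximal Schur multiplier norm of a sign matrix of order `n` -/
noncomputable def r (n : ℕ) : ℝ := sSup (schurN '' Q n)

/-- the bilinear form -/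
noncomputable def bf {n : ℕ} (A : Matrix (Fin n) (Fin n) ℂ) (x y : Fin n → ℂ) : ℂ :=
  ∑ i, ∑ j, star (x i) * A i j * y j

/-- the Euclidean norm -/
noncomputable def nn {n : ℕ} (x : Fin n → ℂ) : ℝ := √(∑ i, ‖x i‖ ^ 2)

lemma nn_nonneg {n : ℕ} (x : Fin n → ℂ) : 0 ≤ nn x := Real.sqrt_nonneg _

lemma nn_sq {n : ℕ} (x : Fin n → ℂ) : nn x ^ 2 = ∑ i, ‖x i‖ ^ 2 :=
  Real.sq_sqrt (Finset.sum_nonneg fun _ _ => by positivity)

lemma nn_eq {n : ℕ} (x : EuclideanSpace ℂ (Fin n)) : nn (x.ofLp) = ‖x‖ := by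
  rw [EuclideanSpace.norm_eq, nn]

lemma norm_le_nn {n : ℕ} (x : Fin n → ℂ) (i : Fin n) : ‖x i‖ ≤ nn x := by
  apply Real.le_sqrt_of_sq_le
  exact Finset.single_le_sum (f := fun i => ‖x i‖ ^ 2) (fun _ _ => by positivity) (Finset.mem_univ i)

lemma bf_eq_inner {n : ℕ} (A : Matrix (Fin n) (Fin n) ℂ) (x y : EuclideanSpace ℂ (Fin n)) :
    bf A x.ofLp y.ofLp = inner ℂ x (Matrix.toEuclideanCLM (n := Fin n) (𝕜 := ℂ) A y) := by
  rw [PiLp.inner_apply]
  unfold bf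
  refine Finset.sum_congr rfl fun i _ => ?_
  rw [Matrix.ofLp_toEuclideanCLM]
  simp only [Matrix.mulVec, dotProduct, RCLike.inner_apply, Finset.sum_mul]
  refine Finset.sum_congr rfl fun j _ => ?_
  rw [starRingEnd_apply]
  ring

lemma bf_le {n : ℕ} (A : Matrix (Fin n) (Fin n) ℂ) (x y : Fin n → ℂ) :
    ‖bf A x y‖ ≤ opN A * nn x * nn y := by
  have h := bf_eq_inner A (WithLp.toLp 2 x) (WithLp.toLp 2 y)
  have h1 := norm_inner_le_norm (𝕜 := ℂ) (WithLp.toLp 2 x : EuclideanSpace ℂ (Fin n))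
    (Matrix.toEuclideanCLM (n := Fin n) (𝕜 := ℂ) A (WithLp.toLp 2 y))
  rw [← h, ← nn_eq] at h1
  have h2 := (Matrix.toEuclideanCLM (n := Fin n) (𝕜 := ℂ) A).le_opNorm (WithLp.toLp 2 y)
  rw [← nn_eq (WithLp.toLp 2 y)] at h2
  calc ‖bf A x y‖ ≤ nn x * ‖(Matrix.toEuclideanCLM (n := Fin n) (𝕜 := ℂ) A) (WithLp.toLp 2 y)‖ := h1
    _ ≤ nn x * (opN A * nn y) := mul_le_mul_of_nonneg_left h2 (nn_nonneg _)
    _ = _ := by ring

lemma opN_le {n : ℕ} (A : Matrix (Fin n) (Fin n) ℂ) {c : ℝ} (hc : 0 ≤ c)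
    (h : ∀ x y : Fin n → ℂ, ‖bf A x y‖ ≤ c * nn x * nn y) : opN A ≤ c := by
  refine ContinuousLinearMap.opNorm_le_bound _ hc fun y => ?_
  set z := Matrix.toEuclideanCLM (n := Fin n) (𝕜 := ℂ) A y with hz
  have h1 := h z.ofLp y.ofLp
  rw [bf_eq_inner, ← hz, nn_eq, nn_eq, inner_self_eq_norm_sq_to_K] at h1
  have h2 : ‖((‖z‖ : ℂ)) ^ 2‖ = ‖z‖ ^ 2 := by simp
  have h3 : ‖z‖ ^ 2 ≤ c * ‖z‖ * ‖y‖ := by
    rw [← h2]; exact h1
  rcases (norm_nonneg z).eq_or_lt with h0 | h0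
  · rw [← h0]; positivity
  · have : ‖z‖ * ‖z‖ ≤ (c * ‖y‖) * ‖z‖ := by nlinarith
    exact le_of_mul_le_mul_right this h0

lemma opN_nonneg {n : ℕ} (A : Matrix (Fin n) (Fin n) ℂ) : 0 ≤ opN A := norm_nonneg _

lemma exists_of_lt {n : ℕ} (A : Matrix (Fin n) (Fin n) ℂ) {t : ℝ} (ht : 0 ≤ t) (h : t < opN A) :
    ∃ x y : Fin n → ℂ, t * nn x * nn y < ‖bf A x y‖ := by
  by_contra hc
  push Not at hc
  exact absurd (opN_le A ht hc) (not_le.mpr h)

/-- the Schur product of a sign matrix and a contraction -/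
lemma had_le {n : ℕ} {M : Matrix (Fin n) (Fin n) ℂ} (hM : M ∈ Q n) {A : Matrix (Fin n) (Fin n) ℂ}
    (hA : opN A ≤ 1) : opN (had M A) ≤ n * n := by
  have hA' : ∀ i j, ‖A i j‖ ≤ 1 := by
    intro i j
    have := bf_le A (Pi.single i 1) (Pi.single j 1)
    have e1 : ∀ i : Fin n, nn (Pi.single i (1 : ℂ)) = 1 := by
      intro i
      rw [nn, Finset.sum_eq_single i]
      · simp
      · intro b _ hb; simp [Pi.single_eq_of_ne hb]
      · simp
    have e2 : bf A (Pi.single i 1) (Pi.single j 1) = A i j := by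
      unfold bf
      rw [Finset.sum_eq_single i, Finset.sum_eq_single j]
      · simp
      · intro b _ hb; simp [Pi.single_eq_of_ne hb]
      · simp
      · intro b _ hb; simp [Pi.single_eq_of_ne hb]
      · simp
    rw [e1, e1, e2] at this
    linarith
  refine opN_le _ (by positivity) fun x y => ?_
  unfold bf had
  calc ‖∑ i, ∑ j, star (x i) * (Matrix.of fun i j => M i j * A i j) i j * y j‖
      ≤ ∑ i, ∑ j, ‖star (x i) * (Matrix.of fun i j => M i j * A i j) i j * y j‖ :=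
        (norm_sum_le _ _).trans (Finset.sum_le_sum fun i _ => norm_sum_le _ _)
    _ ≤ ∑ i : Fin n, ∑ j : Fin n, nn x * nn y := by
        refine Finset.sum_le_sum fun i _ => Finset.sum_le_sum fun j _ => ?_
        rw [norm_mul, norm_mul, norm_star, Matrix.of_apply, norm_mul]
        have h1 : ‖M i j‖ = 1 := by rcases hM i j with h | h <;> simp [h]
        rw [h1, one_mul]
        have h2 := norm_le_nn x i
        have h3 := norm_le_nn y j
        calc ‖x i‖ * ‖A i j‖ * ‖y j‖ ≤ ‖x i‖ * 1 * ‖y j‖ := by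
              have := hA' i j
              gcongr
          _ ≤ nn x * nn y := by rw [mul_one]; exact mul_le_mul h2 h3 (norm_nonneg _) (nn_nonneg _)
    _ = n * n * nn x * nn y := by simp; ring

lemma bdd {n : ℕ} {M : Matrix (Fin n) (Fin n) ℂ} (hM : M ∈ Q n) :
    BddAbove {t : ℝ | ∃ A : Matrix (Fin n) (Fin n) ℂ, opN A ≤ 1 ∧ t = opN (had M A)} := by
  refine ⟨n * n, ?_⟩
  rintro t ⟨A, hA, rfl⟩
  exact had_le hM hA

lemma opN_zero {n : ℕ} : opN (0 : Matrix (Fin n) (Fin n) ℂ) = 0 := by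
  unfold opN; simp

lemma nonemp {n : ℕ} (M : Matrix (Fin n) (Fin n) ℂ) :
    {t : ℝ | ∃ A : Matrix (Fin n) (Fin n) ℂ, opN A ≤ 1 ∧ t = opN (had M A)}.Nonempty :=
  ⟨_, 0, by rw [opN_zero]; norm_num, rfl⟩

lemma le_schurN {n : ℕ} {M : Matrix (Fin n) (Fin n) ℂ} (hM : M ∈ Q n)
    {A : Matrix (Fin n) (Fin n) ℂ} (hA : opN A ≤ 1) : opN (had M A) ≤ schurN M :=
  le_csSup (bdd hM) ⟨A, hA, rfl⟩

lemma Q_finite (n : ℕ) : (Q n).Finite := by
  have : (Q n) ⊆ Set.range (fun s : Fin n → Fin n → Bool =>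
      (Matrix.of fun i j => if s i j then (1 : ℂ) else -1)) := by
    intro M hM
    classical
    refine ⟨fun i j => decide (M i j = 1), ?_⟩
    ext i j
    rcases hM i j with h | h
    · simp [h]
    · have : ¬ ((-1 : ℂ) = 1) := by norm_num
      simp [h, this]
  exact (Set.finite_range _).subset this

lemma Q_nonempty (n : ℕ) : (Q n).Nonempty := ⟨Matrix.of fun _ _ => 1, fun _ _ => Or.inl rfl⟩

lemma schurN_le_r {n : ℕ} {M : Matrix (Fin n) (Fin n) ℂ} (hM : M ∈ Q n) : schurN M ≤ r n :=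
  le_csSup ((Q_finite n).image _).bddAbove ⟨M, hM, rfl⟩

lemma exists_r (n : ℕ) : ∃ M ∈ Q n, schurN M = r n := by
  have h := ((Q_nonempty n).image schurN).csSup_mem ((Q_finite n).image _)
  exact h

/-! ## doubling -/

section dbl

variable {n : ℕ}

/-- the projection of indices -/
def pr (i₀ : Fin n) : Fin (n + 1) → Fin n := Fin.lastCases i₀ id

/-- the weights -/
noncomputable def al (i₀ : Fin n) : Fin (n + 1) → ℝ :=
  Fin.lastCases (1 / 2) (fun i => if i = i₀ then √3 / 2 else 1)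

/-- the orthogonal vector -/
noncomputable def kv (i₀ : Fin n) : Fin (n + 1) → ℝ :=
  Fin.lastCases (-(√3 / 2)) (fun i => if i = i₀ then 1 / 2 else 0)

@[simp] lemma pr_last (i₀ : Fin n) : pr i₀ (Fin.last n) = i₀ := by simp [pr]
@[simp] lemma pr_cast (i₀ i : Fin n) : pr i₀ (Fin.castSucc i) = i := by simp [pr]
@[simp] lemma al_last (i₀ : Fin n) : al i₀ (Fin.last n) = 1 / 2 := by simp [al]
@[simp] lemma al_cast (i₀ i : Fin n) :
    al i₀ (Fin.castSucc i) = if i = i₀ then √3 / 2 else 1 := by simp [al]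
@[simp] lemma kv_last (i₀ : Fin n) : kv i₀ (Fin.last n) = -(√3 / 2) := by simp [kv]
@[simp] lemma kv_cast (i₀ i : Fin n) :
    kv i₀ (Fin.castSucc i) = if i = i₀ then 1 / 2 else 0 := by simp [kv]

lemma sq3 : √3 * √3 = (3 : ℝ) := Real.mul_self_sqrt (by norm_num)

lemma sq3c : ((√3 : ℝ) : ℂ) * ((√3 : ℝ) : ℂ) = 3 := by
  rw [← Complex.ofReal_mul, sq3]; norm_num

/-- sums with the squares of the weights -/
lemma sum_al (i₀ : Fin n) (g : Fin n → ℂ) :
    ∑ a, ((al i₀ a : ℝ) : ℂ) * ((al i₀ a : ℝ) : ℂ) * g (pr i₀ a) = ∑ i, g i := by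
  rw [Fin.sum_univ_castSucc]
  simp only [al_cast, pr_cast, al_last, pr_last]
  rw [← Finset.add_sum_erase _ _ (Finset.mem_univ i₀), ← Finset.add_sum_erase _ g (Finset.mem_univ i₀)]
  rw [if_pos rfl]
  have : ∑ x ∈ Finset.univ.erase i₀, (((if x = i₀ then √3 / 2 else 1 : ℝ)) : ℂ) *
      (((if x = i₀ then √3 / 2 else 1 : ℝ)) : ℂ) * g x = ∑ x ∈ Finset.univ.erase i₀, g x := by
    refine Finset.sum_congr rfl fun x hx => ?_
    rw [if_neg (Finset.ne_of_mem_erase hx)]; simp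
  rw [this]
  push_cast
  linear_combination (g i₀ / 4) * sq3c

/-- sums with the orthogonal vector -/
lemma sum_kv (i₀ : Fin n) (g : Fin n → ℂ) :
    ∑ a, ((al i₀ a : ℝ) : ℂ) * ((kv i₀ a : ℝ) : ℂ) * g (pr i₀ a) = 0 := by
  rw [Fin.sum_univ_castSucc]
  simp only [al_cast, pr_cast, al_last, pr_last, kv_cast, kv_last]
  rw [Finset.sum_eq_single i₀]
  · rw [if_pos rfl, if_pos rfl]
    push_cast
    ring
  · intro b _ hb
    rw [if_neg hb, if_neg hb]; simp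
  · simp

/-- the adjoint of the isometry -/
noncomputable def fd (i₀ : Fin n) (w : Fin (n + 1) → ℂ) : Fin n → ℂ := fun i =>
  if i = i₀ then ((√3 / 2 : ℝ) : ℂ) * w (Fin.castSucc i) + (1 / 2) * w (Fin.last n)
  else w (Fin.castSucc i)

/-- the scalar product with the orthogonal vector -/
noncomputable def kk (i₀ : Fin n) (w : Fin (n + 1) → ℂ) : ℂ :=
  (1 / 2) * w (Fin.castSucc i₀) - ((√3 / 2 : ℝ) : ℂ) * w (Fin.last n)

lemma sum_fd (i₀ : Fin n) (w : Fin (n + 1) → ℂ) (g : Fin n → ℂ) :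
    ∑ a, ((al i₀ a : ℝ) : ℂ) * w a * g (pr i₀ a) = ∑ i, fd i₀ w i * g i := by
  rw [Fin.sum_univ_castSucc]
  simp only [al_cast, pr_cast, al_last, pr_last]
  rw [← Finset.add_sum_erase _ _ (Finset.mem_univ i₀),
    ← Finset.add_sum_erase _ (fun i => fd i₀ w i * g i) (Finset.mem_univ i₀)]
  have : ∑ x ∈ Finset.univ.erase i₀, (((if x = i₀ then √3 / 2 else 1 : ℝ)) : ℂ) *
      w (Fin.castSucc x) * g x = ∑ x ∈ Finset.univ.erase i₀, fd i₀ w x * g x := by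
    refine Finset.sum_congr rfl fun x hx => ?_
    rw [fd, if_neg (Finset.ne_of_mem_erase hx), if_neg (Finset.ne_of_mem_erase hx)]; simp
  rw [this]
  simp only [fd, if_true]
  push_cast
  ring

lemma sum_kk (i₀ : Fin n) (w : Fin (n + 1) → ℂ) :
    ∑ a, ((kv i₀ a : ℝ) : ℂ) * w a = kk i₀ w := by
  rw [Fin.sum_univ_castSucc]
  simp only [kv_cast, kv_last]
  rw [Finset.sum_eq_single i₀]
  · rw [if_pos rfl, kk]
    push_cast
    ring
  · intro b _ hb
    rw [if_neg hb]; simp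
  · simp

lemma nsq (z : ℂ) : ((‖z‖ ^ 2 : ℝ) : ℂ) = star z * z := by
  rw [RCLike.star_def, Complex.conj_mul']
  push_cast; rfl

/-- Pythagoras -/
lemma nn_fd (i₀ : Fin n) (w : Fin (n + 1) → ℂ) :
    nn (fd i₀ w) ^ 2 + ‖kk i₀ w‖ ^ 2 = nn w ^ 2 := by
  rw [nn_sq, nn_sq]
  apply Complex.ofReal_injective
  rw [Fin.sum_univ_castSucc, ← Finset.add_sum_erase _ _ (Finset.mem_univ i₀),
    ← Finset.add_sum_erase _ (fun i => ‖w (Fin.castSucc i)‖ ^ 2) (Finset.mem_univ i₀)]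
  have : ∑ x ∈ Finset.univ.erase i₀, ‖fd i₀ w x‖ ^ 2 =
      ∑ x ∈ Finset.univ.erase i₀, ‖w (Fin.castSucc x)‖ ^ 2 := by
    refine Finset.sum_congr rfl fun x hx => ?_
    rw [fd, if_neg (Finset.ne_of_mem_erase hx)]
  rw [this]
  have key : ((‖fd i₀ w i₀‖ ^ 2 : ℝ) : ℂ) + ((‖kk i₀ w‖ ^ 2 : ℝ) : ℂ) =
      ((‖w (Fin.castSucc i₀)‖ ^ 2 : ℝ) : ℂ) + ((‖w (Fin.last n)‖ ^ 2 : ℝ) : ℂ) := by
    rw [nsq, nsq, nsq, nsq]
    simp only [fd, kk, if_true]
    simp only [star_add, star_sub, star_mul', RCLike.star_def, Complex.conj_ofReal, map_div₀,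
      map_one, map_ofNat]
    push_cast
    linear_combination ((starRingEnd ℂ) (w i₀.castSucc) * w i₀.castSucc / 4 +
      (starRingEnd ℂ) (w (Fin.last n)) * w (Fin.last n) / 4) * sq3c
  push_cast at key ⊢
  linear_combination key

/-- the doubled contraction -/
noncomputable def dA (i₀ j₀ : Fin n) (s : ℂ) (A : Matrix (Fin n) (Fin n) ℂ) :
    Matrix (Fin (n + 1)) (Fin (n + 1)) ℂ := Matrix.of fun a b =>
  ((al i₀ a : ℝ) : ℂ) * A (pr i₀ a) (pr j₀ b) * ((al j₀ b : ℝ) : ℂ) +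
    s * ((kv i₀ a : ℝ) : ℂ) * ((kv j₀ b : ℝ) : ℂ)

lemma star_real_mul (t : ℝ) (z : ℂ) : star ((t : ℂ) * z) = (t : ℂ) * star z := by
  simp [RCLike.star_def]

lemma fd_star (i₀ : Fin n) (w : Fin (n + 1) → ℂ) :
    fd i₀ (fun a => star (w a)) = fun i => star (fd i₀ w i) := by
  funext i
  unfold fd
  split_ifs with h
  · simp only [star_add, RCLike.star_def, map_mul, Complex.conj_ofReal, map_div₀, map_one,
      map_ofNat]
  · rfl

lemma kk_star (i₀ : Fin n) (w : Fin (n + 1) → ℂ) :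
    kk i₀ (fun a => star (w a)) = star (kk i₀ w) := by
  unfold kk
  simp only [star_sub, RCLike.star_def, map_mul, Complex.conj_ofReal, map_div₀, map_one,
      map_ofNat]

lemma bf_dA (i₀ j₀ : Fin n) (s : ℂ) (A : Matrix (Fin n) (Fin n) ℂ) (w z : Fin (n + 1) → ℂ) :
    bf (dA i₀ j₀ s A) w z = bf A (fd i₀ w) (fd j₀ z) + s * star (kk i₀ w) * kk j₀ z := by
  have h1 : bf (dA i₀ j₀ s A) w z =
      ∑ a, ((al i₀ a : ℝ) : ℂ) * star (w a) *
        (∑ b, ((al j₀ b : ℝ) : ℂ) * z b * A (pr i₀ a) (pr j₀ b)) +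
      s * (∑ a, ((kv i₀ a : ℝ) : ℂ) * star (w a)) * ∑ b, ((kv j₀ b : ℝ) : ℂ) * z b := by
    unfold bf dA
    rw [mul_assoc s, Finset.sum_mul_sum, Finset.mul_sum, ← Finset.sum_add_distrib]
    refine Finset.sum_congr rfl fun a _ => ?_
    rw [Finset.mul_sum, Finset.mul_sum, ← Finset.sum_add_distrib]
    refine Finset.sum_congr rfl fun b _ => ?_
    rw [Matrix.of_apply]
    ring
  rw [h1]
  have h2 : ∀ a, ∑ b, ((al j₀ b : ℝ) : ℂ) * z b * A (pr i₀ a) (pr j₀ b) =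
      ∑ j, fd j₀ z j * A (pr i₀ a) j := fun a => sum_fd j₀ z (fun j => A (pr i₀ a) j)
  have h3 : ∑ a, ((al i₀ a : ℝ) : ℂ) * star (w a) *
        (∑ b, ((al j₀ b : ℝ) : ℂ) * z b * A (pr i₀ a) (pr j₀ b)) =
      ∑ i, fd i₀ (fun a => star (w a)) i * ∑ j, fd j₀ z j * A i j := by
    rw [← sum_fd i₀ (fun a => star (w a)) (fun i => ∑ j, fd j₀ z j * A i j)]
    exact Finset.sum_congr rfl fun a _ => by rw [h2]
  rw [h3, sum_kk j₀ z, sum_kk i₀ (fun a => star (w a)), fd_star, kk_star]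
  congr 1
  unfold bf
  refine Finset.sum_congr rfl fun i _ => ?_
  rw [Finset.mul_sum]
  exact Finset.sum_congr rfl fun j _ => by ring

lemma dA_le (i₀ j₀ : Fin n) {s : ℂ} (hs : ‖s‖ ≤ 1) {A : Matrix (Fin n) (Fin n) ℂ}
    (hA : opN A ≤ 1) : opN (dA i₀ j₀ s A) ≤ 1 := by
  refine opN_le _ zero_le_one fun w z => ?_
  rw [bf_dA, one_mul]
  have h1 : ‖bf A (fd i₀ w) (fd j₀ z)‖ ≤ nn (fd i₀ w) * nn (fd j₀ z) := by
    have := bf_le A (fd i₀ w) (fd j₀ z)
    have h0 : 0 ≤ nn (fd i₀ w) * nn (fd j₀ z) := mul_nonneg (nn_nonneg _) (nn_nonneg _)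
    nlinarith
  have h2 : ‖s * star (kk i₀ w) * kk j₀ z‖ ≤ ‖kk i₀ w‖ * ‖kk j₀ z‖ := by
    rw [norm_mul, norm_mul, norm_star]
    have := mul_nonneg (norm_nonneg (kk i₀ w)) (norm_nonneg (kk j₀ z))
    nlinarith
  have h3 := nn_fd i₀ w
  have h4 := nn_fd j₀ z
  have h5 : (nn (fd i₀ w) * nn (fd j₀ z) + ‖kk i₀ w‖ * ‖kk j₀ z‖) ≤ nn w * nn z := by
    apply abs_le_of_sq_le_sq' _ (mul_nonneg (nn_nonneg _) (nn_nonneg _)) |>.2
    rw [mul_pow (nn w), ← h3, ← h4]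
    nlinarith [sq_nonneg (nn (fd i₀ w) * ‖kk j₀ z‖ - nn (fd j₀ z) * ‖kk i₀ w‖)]
  exact (norm_add_le _ _).trans ((add_le_add h1 h2).trans h5)

/-- the doubled sign matrix -/
noncomputable def dM (i₀ j₀ : Fin n) (M : Matrix (Fin n) (Fin n) ℂ) :
    Matrix (Fin (n + 1)) (Fin (n + 1)) ℂ := Matrix.of fun a b =>
  if a = Fin.last n ∧ b = Fin.last n then - M i₀ j₀ else M (pr i₀ a) (pr j₀ b)

lemma dM_mem (i₀ j₀ : Fin n) {M : Matrix (Fin n) (Fin n) ℂ} (hM : M ∈ Q n) :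
    dM i₀ j₀ M ∈ Q (n + 1) := by
  intro a b
  rw [dM, Matrix.of_apply]
  split_ifs
  · rcases hM i₀ j₀ with h | h <;> simp [h]
  · exact hM _ _

/-- the doubled vector -/
noncomputable def dx (i₀ : Fin n) (x : Fin n → ℂ) : Fin (n + 1) → ℂ :=
  fun a => ((al i₀ a : ℝ) : ℂ) * x (pr i₀ a)

lemma nn_dx (i₀ : Fin n) (x : Fin n → ℂ) : nn (dx i₀ x) = nn x := by
  have : nn (dx i₀ x) ^ 2 = nn x ^ 2 := by
    rw [nn_sq, nn_sq]
    apply Complex.ofReal_injective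
    have := sum_al i₀ (fun i => ((‖x i‖ ^ 2 : ℝ) : ℂ))
    push_cast at this ⊢
    rw [← this]
    refine Finset.sum_congr rfl fun a _ => ?_
    rw [dx, norm_mul]
    simp only [Complex.norm_real, Real.norm_eq_abs]
    push_cast
    rw [mul_pow, ← Complex.ofReal_pow, sq_abs]
    push_cast
    ring
  exact (pow_left_inj₀ (nn_nonneg _) (nn_nonneg _) two_ne_zero).mp this

lemma bf_dM (i₀ j₀ : Fin n) (s : ℂ) (M A : Matrix (Fin n) (Fin n) ℂ) (x y : Fin n → ℂ) :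
    bf (had (dM i₀ j₀ M) (dA i₀ j₀ s A)) (dx i₀ x) (dx j₀ y) =
      bf (had M A) x y - (1 / 2) * M i₀ j₀ * (star (x i₀) * y j₀) *
        ((1 / 4) * A i₀ j₀ + (3 / 4) * s) := by
  -- split off the change of sign
  have e1 : bf (had (dM i₀ j₀ M) (dA i₀ j₀ s A)) (dx i₀ x) (dx j₀ y) =
      (∑ a, ∑ b, star (dx i₀ x a) * (M (pr i₀ a) (pr j₀ b) * dA i₀ j₀ s A a b) * dx j₀ y b) -
      2 * (star (dx i₀ x (Fin.last n)) * (M i₀ j₀ * dA i₀ j₀ s A (Fin.last n) (Fin.last n)) *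
        dx j₀ y (Fin.last n)) := by
    have : ∀ a b, (had (dM i₀ j₀ M) (dA i₀ j₀ s A)) a b =
        M (pr i₀ a) (pr j₀ b) * dA i₀ j₀ s A a b -
        (if a = Fin.last n then (if b = Fin.last n then
          2 * (M i₀ j₀ * dA i₀ j₀ s A (Fin.last n) (Fin.last n)) else 0) else 0) := by
      intro a b
      simp only [had, dM, Matrix.of_apply]
      by_cases ha : a = Fin.last n
      · by_cases hb : b = Fin.last n
        · subst ha; subst hb; simp; ring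
        · simp [hb]
      · simp [ha]
    unfold bf
    simp only [this, mul_sub, sub_mul, Finset.sum_sub_distrib]
    congr 1
    rw [Finset.sum_eq_single (Fin.last n), Finset.sum_eq_single (Fin.last n)]
    · simp; ring
    · intro b _ hb; simp [hb]
    · simp
    · intro b _ hb; simp [hb]
    · simp
  rw [e1]
  have e2 : (∑ a, ∑ b, star (dx i₀ x a) * (M (pr i₀ a) (pr j₀ b) * dA i₀ j₀ s A a b) * dx j₀ y b) =
      bf (had M A) x y := by
    have h1 : ∀ a, ∑ b, star (dx i₀ x a) * (M (pr i₀ a) (pr j₀ b) * dA i₀ j₀ s A a b) * dx j₀ y b =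
        ((al i₀ a : ℝ) : ℂ) * ((al i₀ a : ℝ) : ℂ) * (∑ j, star (x (pr i₀ a)) *
          (M (pr i₀ a) j * A (pr i₀ a) j) * y j) := by
      intro a
      have h2 := sum_al j₀ (fun j => star (x (pr i₀ a)) * (M (pr i₀ a) j * A (pr i₀ a) j) * y j)
      have h3 := sum_kv j₀ (fun j => star (x (pr i₀ a)) * M (pr i₀ a) j * y j)
      rw [← h2, Finset.mul_sum]
      have h4 : ∑ b, star (dx i₀ x a) * (M (pr i₀ a) (pr j₀ b) * dA i₀ j₀ s A a b) * dx j₀ y b =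
          ∑ b, ((al i₀ a : ℝ) : ℂ) * ((al i₀ a : ℝ) : ℂ) * (((al j₀ b : ℝ) : ℂ) *
            ((al j₀ b : ℝ) : ℂ) * (star (x (pr i₀ a)) * (M (pr i₀ a) (pr j₀ b) *
            A (pr i₀ a) (pr j₀ b)) * y (pr j₀ b))) +
          ((al i₀ a : ℝ) : ℂ) * s * ((kv i₀ a : ℝ) : ℂ) * ∑ b, ((al j₀ b : ℝ) : ℂ) *
            ((kv j₀ b : ℝ) : ℂ) * (star (x (pr i₀ a)) * M (pr i₀ a) (pr j₀ b) * y (pr j₀ b)) := by
        rw [Finset.mul_sum, ← Finset.sum_add_distrib]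
        refine Finset.sum_congr rfl fun b _ => ?_
        simp only [dx, dA, Matrix.of_apply, star_real_mul]
        ring
      rw [h4, h3, mul_zero, add_zero]
    simp only [h1]
    rw [sum_al i₀ (fun i => ∑ j, star (x i) * (M i j * A i j) * y j)]
    rfl
  rw [e2]
  congr 1
  simp only [dx, dA, Matrix.of_apply, star_real_mul, al_last, kv_last, pr_last]
  push_cast
  linear_combination (1 / 8 : ℂ) * M i₀ j₀ * (star (x i₀) * y j₀) * s * sq3c

/-- The increment. -/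
theorem step (i₀ j₀ : Fin n) {M : Matrix (Fin n) (Fin n) ℂ} (hM : M ∈ Q n)
    {A : Matrix (Fin n) (Fin n) ℂ} (hA : opN A ≤ 1) (x y : Fin n → ℂ) :
    ∃ A' : Matrix (Fin (n + 1)) (Fin (n + 1)) ℂ, opN A' ≤ 1 ∧
      ‖bf (had M A) x y‖ + (1 / 4) * ‖x i₀‖ * ‖y j₀‖ ≤
        ‖bf (had (dM i₀ j₀ M) A') (dx i₀ x) (dx j₀ y)‖ := by
  set T := bf (had M A) x y with hT
  set q := M i₀ j₀ * (star (x i₀) * y j₀) with hq
  have hMn : ‖M i₀ j₀‖ = 1 := by rcases hM i₀ j₀ with h | h <;> simp [h]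
  have hqn : ‖q‖ = ‖x i₀‖ * ‖y j₀‖ := by
    rw [hq, norm_mul, norm_mul, norm_star, hMn, one_mul]
  have hAn : ‖A i₀ j₀‖ ≤ 1 := by
    have := bf_le A (Pi.single i₀ 1) (Pi.single j₀ 1)
    have e1 : ∀ i : Fin n, nn (Pi.single i (1 : ℂ)) = 1 := by
      intro i
      rw [nn, Finset.sum_eq_single i]
      · simp
      · intro b _ hb; simp [Pi.single_eq_of_ne hb]
      · simp
    have e2 : bf A (Pi.single i₀ 1) (Pi.single j₀ 1) = A i₀ j₀ := by
      unfold bf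
      rw [Finset.sum_eq_single i₀, Finset.sum_eq_single j₀]
      · simp
      · intro b _ hb; simp [Pi.single_eq_of_ne hb]
      · simp
      · intro b _ hb; simp [Pi.single_eq_of_ne hb]
      · simp
    rw [e1, e1, e2] at this
    linarith
  -- the sign
  obtain ⟨s, hs, hsn⟩ : ∃ s : ℂ, ‖s‖ ≤ 1 ∧ ‖T - (3 / 8) * q * s‖ = ‖T‖ + (3 / 8) * ‖q‖ := by
    by_cases h0 : T = 0
    · refine ⟨1, by simp, ?_⟩
      rw [h0]; simp
    by_cases h1 : q = 0
    · refine ⟨1, by simp, ?_⟩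
      rw [h1]; simp
    refine ⟨-(T / ‖T‖) * (star q / ‖q‖), ?_, ?_⟩
    · rw [norm_mul, norm_neg, norm_div, norm_div, norm_star, Complex.norm_real, Complex.norm_real,
        norm_norm, norm_norm, div_self (norm_ne_zero_iff.mpr h0),
        div_self (norm_ne_zero_iff.mpr h1), mul_one]
    · have e : T - (3 / 8) * q * (-(T / ‖T‖) * (star q / ‖q‖)) =
          T * ((1 + (3 / 8) * ‖q‖ / ‖T‖ : ℝ) : ℂ) := by
        have hqq : q * star q = (‖q‖ : ℂ) ^ 2 := by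
          rw [mul_comm, ← nsq]; push_cast; rfl
        have hq0 : (‖q‖ : ℂ) ≠ 0 := by exact_mod_cast norm_ne_zero_iff.mpr h1
        have hT0 : (‖T‖ : ℂ) ≠ 0 := by exact_mod_cast norm_ne_zero_iff.mpr h0
        push_cast
        field_simp
        linear_combination (3 : ℂ) * hqq
      have hT0 : 0 < ‖T‖ := norm_pos_iff.mpr h0
      rw [e, norm_mul, Complex.norm_real, Real.norm_eq_abs, abs_of_pos (by positivity)]
      field_simp
  refine ⟨dA i₀ j₀ s A, dA_le i₀ j₀ hs hA, ?_⟩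
  rw [bf_dM, ← hT]
  have e : T - (1 / 2) * M i₀ j₀ * (star (x i₀) * y j₀) * ((1 / 4) * A i₀ j₀ + (3 / 4) * s) =
      (T - (3 / 8) * q * s) - (1 / 8) * q * A i₀ j₀ := by rw [hq]; ring
  rw [e]
  have h1 := norm_sub_norm_le (T - (3 / 8) * q * s) ((1 / 8) * q * A i₀ j₀)
  have h2 : ‖(1 / 8) * q * A i₀ j₀‖ ≤ (1 / 8) * ‖q‖ := by
    rw [norm_mul, norm_mul]
    have : ‖(1 / 8 : ℂ)‖ = 1 / 8 := by norm_num
    rw [this]
    have := mul_le_mul_of_nonneg_left hAn (by positivity : (0 : ℝ) ≤ 1 / 8 * ‖q‖)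
    linarith
  rw [hsn] at h1
  rw [mul_assoc, ← hqn]
  linarith

lemma exists_large (hn : 0 < n) (x : Fin n → ℂ) : ∃ i, nn x ≤ √n * ‖x i‖ := by
  have : Nonempty (Fin n) := ⟨⟨0, hn⟩⟩
  obtain ⟨i, hi⟩ := Finite.exists_max (fun i => ‖x i‖)
  refine ⟨i, ?_⟩
  unfold nn
  rw [Real.sqrt_le_left (by positivity), mul_pow, Real.sq_sqrt (by positivity)]
  calc ∑ j, ‖x j‖ ^ 2 ≤ ∑ j : Fin n, ‖x i‖ ^ 2 :=
        Finset.sum_le_sum fun j _ => pow_le_pow_left₀ (norm_nonneg _) (hi j) 2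
    _ = n * ‖x i‖ ^ 2 := by simp

theorem schurN_add_le (hn : 0 < n) {M : Matrix (Fin n) (Fin n) ℂ} (hM : M ∈ Q n) :
    schurN M + 1 / (4 * n) ≤ r (n + 1) := by
  have hnR : (0 : ℝ) < n := by exact_mod_cast hn
  rw [← le_sub_iff_add_le]
  refine csSup_le (nonemp M) ?_
  rintro t ⟨A, hA, rfl⟩
  rw [le_sub_iff_add_le]
  by_contra hcon
  push Not at hcon
  -- choose `t`
  have hr0 : 0 ≤ r (n + 1) := by
    have := le_schurN (M := Matrix.of fun _ _ : Fin (n + 1) => (1 : ℂ)) (fun _ _ => Or.inl rfl)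
      (A := 0) (by rw [opN_zero]; norm_num)
    exact (opN_nonneg _).trans (this.trans (schurN_le_r (fun _ _ => Or.inl rfl)))
  have hM1 : ∀ {A : Matrix (Fin n) (Fin n) ℂ}, opN A ≤ 1 → ∀ {x y : Fin n → ℂ},
      ‖bf (had M A) x y‖ + 1 / (4 * n) * nn x * nn y ≤ r (n + 1) * nn x * nn y := by
    intro A hA x y
    obtain ⟨i, hi⟩ := exists_large hn x
    obtain ⟨j, hj⟩ := exists_large hn y
    obtain ⟨A', hA', h⟩ := step i j hM hA x y
    have h1 := bf_le (had (dM i j M) A') (dx i x) (dx j y)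
    rw [nn_dx, nn_dx] at h1
    have h2 := (le_schurN (dM_mem i j hM) hA').trans (schurN_le_r (dM_mem i j hM))
    have h3 : nn x * nn y ≤ n * (‖x i‖ * ‖y j‖) := by
      calc nn x * nn y ≤ (√n * ‖x i‖) * (√n * ‖y j‖) :=
            mul_le_mul hi hj (nn_nonneg _) (by positivity)
        _ = (√n * √n) * (‖x i‖ * ‖y j‖) := by ring
        _ = _ := by rw [Real.mul_self_sqrt hnR.le]
    have h4 : 1 / (4 * n) * nn x * nn y ≤ (1 / 4) * ‖x i‖ * ‖y j‖ := by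
      have : 1 / (4 * (n : ℝ)) * nn x * nn y = (nn x * nn y) / (4 * n) := by ring
      rw [this, div_le_iff₀ (by positivity)]
      nlinarith
    have h5 : opN (had (dM i j M) A') * nn x * nn y ≤ r (n + 1) * nn x * nn y := by
      have := mul_nonneg (nn_nonneg x) (nn_nonneg y)
      nlinarith
    linarith
  by_cases hneg : r (n + 1) - 1 / (4 * n) < 0
  · -- take unit vectors
    have h := hM1 (A := 0) (by rw [opN_zero]; norm_num)
      (x := Pi.single ⟨0, hn⟩ 1) (y := Pi.single ⟨0, hn⟩ 1)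
    have e1 : ∀ i : Fin n, nn (Pi.single i (1 : ℂ)) = 1 := by
      intro i
      rw [nn, Finset.sum_eq_single i]
      · simp
      · intro b _ hb; simp [Pi.single_eq_of_ne hb]
      · simp
    rw [e1] at h
    have := norm_nonneg (bf (had M 0) (Pi.single ⟨0, hn⟩ 1) (Pi.single ⟨0, hn⟩ 1))
    linarith
  · push Not at hneg
    obtain ⟨x, y, hxy⟩ := exists_of_lt (had M A) hneg (by linarith)
    have := hM1 hA (x := x) (y := y)
    nlinarith

theorem r_succ (hn : 0 < n) : r n + 1 / (4 * n) ≤ r (n + 1) := by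
  obtain ⟨M, hM, h⟩ := exists_r n
  rw [← h]
  exact schurN_add_le hn hM

end dbl

end Pool.Agent.KS6_96.SC
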